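import Pool.Agent.Helper72.PR.Numbers
import Pool.Agent.Helper79.MI.Supp

/-!
# Placed polygons are bodies; no containment of the sets of centres
-/

namespace Pool.Agent.Helper72.PR

open Pool.Agent.Helper16.Disk7 Pool.Agent.Helper57.CW Pool.Agent.Helper79.MI
open MeasureTheory Metric Complex Set
open scoped ENNReal Pointwise

variable {R D W : ℝ}

/-- The placed polygon is a body. -/
theorem body_pl {V : Finset ℂ}
    (hd : ∀ x ∈ hull V, ∀ y ∈ hull V, ‖x - y‖ ≤ D)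
    (hw : ∀ θ : ℝ, ∃ x ∈ hull V, ∃ y ∈ hull V, W ≤ ip x (e θ) - ip y (e θ))
    {x : ℂ} (hx : x ∈ V) {v : ℝ} (hv : v ∈ st V R x) : Body R D W (pl V R x v) where
  isCompact := (isCompact_hull V).image (by fun_prop)
  convex := by
    have h1 : pl V R x v = (LinearMap.mulLeft ℝ (e (-v))) '' ((fun z => -(x - R * e v) + z) '' hull V) := by
      rw [Set.image_image]
      apply Set.image_congr
      intro z _
      show e (-v) * (z - (x - R * e v)) = e (-v) * (-(x - R * e v) + z)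
      ring
    rw [h1]
    exact ((convex_hull V).translate _).linear_image _
  sub := by
    rintro _ ⟨z, hz, rfl⟩
    rw [mem_closedBall, dist_zero_right]
    show ‖e (-v) * (z - (x - R * e v))‖ ≤ R
    rw [norm_mul, norm_e, one_mul]
    have h1 : (V : Set ℂ) ⊆ closedBall (x - R * e v) R := by
      intro y hy
      rw [mem_closedBall, dist_eq_norm]
      exact hv y hy
    have h2 := convexHull_min h1 (convex_closedBall _ _) hz
    rwa [mem_closedBall, dist_eq_norm] at h2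
  touch := by
    refine ⟨x, subset_convexHull ℝ _ hx, ?_⟩
    show e (-v) * (x - (x - R * e v)) = R
    rw [sub_sub_cancel, mul_left_comm, e_mul, neg_add_cancel, e_zero, mul_one]
  diam := by
    rintro _ ⟨y, hy, rfl⟩ _ ⟨z, hz, rfl⟩
    show ‖e (-v) * (y - (x - R * e v)) - e (-v) * (z - (x - R * e v))‖ ≤ D
    rw [← mul_sub, norm_mul, norm_e, one_mul, sub_sub_sub_cancel_right]
    exact hd y hy z hz
  width := by
    intro θ
    obtain ⟨y, hy, z, hz, h⟩ := hw (θ + v)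
    refine ⟨_, ⟨y, hy, rfl⟩, _, ⟨z, hz, rfl⟩, ?_⟩
    show W ≤ ip (e (-v) * (y - (x - R * e v))) (e θ) - ip (e (-v) * (z - (x - R * e v))) (e θ)
    rw [ip_rot_neg, ip_rot_neg, ip_sub_left y, ip_sub_left z]
    linarith

/-- The interior of the placed polygon. -/
theorem interior_pl {V : Finset ℂ} (hi : (interior (hull V)).Nonempty) (x : ℂ) (v : ℝ) :
    (interior (pl V R x v)).Nonempty := by
  have h0 : e (-v) ≠ 0 := by
    intro h0
    have := norm_e (-v)
    rw [h0, norm_zero] at this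
    linarith
  have hop : IsOpenMap (fun z : ℂ => e (-v) * (z - (x - R * e v))) :=
    (Homeomorph.mulLeft₀ (e (-v)) h0).isOpenMap.comp
      (Homeomorph.subRight (x - R * e v)).isOpenMap
  obtain ⟨z, hz⟩ := hi
  have h1 : (fun z : ℂ => e (-v) * (z - (x - R * e v))) '' interior (hull V) ⊆
      interior (pl V R x v) :=
    interior_maximal (Set.image_mono interior_subset) (hop _ isOpen_interior)
  exact ⟨_, h1 ⟨z, hz, rfl⟩⟩

/-- **No containment**: if `K` and `L` are disjoint, some disk of radius `R` contains `K` and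
leaves out a point of `L`. -/
theorem exists_far (hp : Par R D W) {K L : Set ℂ} (hK : IsCompact K) (hKc : Convex ℝ K)
    (hKn : K.Nonempty) (hL : IsCompact L) (hLc : Convex ℝ L) (hLn : L.Nonempty)
    (hd : ∀ x ∈ K, ∀ y ∈ K, ‖x - y‖ ≤ D)
    (hw : ∀ θ : ℝ, ∃ x ∈ L, ∃ y ∈ L, W ≤ ip x (e θ) - ip y (e θ)) (h : Disjoint K L) :
    ∃ c ∈ ctr K R, ∃ y ∈ L, R < ‖y - c‖ := by
  obtain ⟨ν, p, -, hKp, hLp⟩ := exists_sep hK hKc hL hLc hKn hLn h 0
  have hcont : Continuous fun z : ℂ => ip z (e ν) := by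
    have : (fun z : ℂ => ip z (e ν)) = fun z => z.re * Real.cos ν + z.im * Real.sin ν := by
      ext z; exact ip_e z ν
    rw [this]
    fun_prop
  obtain ⟨v0, hv0, hmax⟩ := hK.exists_isMaxOn hKn hcont.continuousOn
  set s := Real.sqrt (R ^ 2 - D ^ 2) with hs
  have hs0 := hp.s_pos
  have hs2 := hp.s_sq
  have hcap := hp.cap
  have hR := hp.R_pos
  have hD := hp.D_pos
  have hnorm : ∀ z : ℂ, ‖z + (s : ℂ) * e ν‖ ^ 2 = ‖z‖ ^ 2 + 2 * s * ip z (e ν) + s ^ 2 := by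
    intro z
    rw [← Complex.normSq_eq_norm_sq, ← Complex.normSq_eq_norm_sq, ip_e]
    simp only [Complex.normSq_apply, Complex.add_re, Complex.add_im, Complex.mul_re,
      Complex.mul_im, Complex.ofReal_re, Complex.ofReal_im, e_re, e_im]
    have h := Real.sin_sq_add_cos_sq ν
    linear_combination s ^ 2 * h
  refine ⟨v0 - (s : ℂ) * e ν, fun x hx => ?_, ?_⟩
  · have h1 : x - (v0 - (s : ℂ) * e ν) = (x - v0) + (s : ℂ) * e ν := by ring
    rw [h1]
    have h2 := hnorm (x - v0)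
    have h3 : ip x (e ν) ≤ ip v0 (e ν) := hmax hx
    have h4 := hd x hx v0 hv0
    have h5 : ‖x - v0‖ ^ 2 ≤ D ^ 2 := pow_le_pow_left₀ (norm_nonneg _) h4 2
    rw [ip_sub_left] at h2
    apply le_of_sq_le_sq _ hR.le
    rw [h2]
    nlinarith
  · obtain ⟨y, hy, y', hy', h1⟩ := hw ν
    refine ⟨y, hy, ?_⟩
    have h2 := hLp y' hy'
    have h3 := hKp v0 hv0
    have h4 := ip_le_norm (y - (v0 - (s : ℂ) * e ν)) (e ν) (norm_e ν)
    rw [ip_sub_left, ip_sub_left, ip_smul, ip_e_e, sub_self, Real.cos_zero, mul_one] at h4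
    linarith

lemma norm_mov (γ : ℝ) (τ c z : ℂ) : ‖e γ * z + τ - c‖ = ‖z - e (-γ) * (c - τ)‖ := by
  have h1 : e γ * z + τ - c = e γ * (z - e (-γ) * (c - τ)) := by
    rw [mul_sub, ← mul_assoc, e_mul, add_neg_cancel, e_zero, one_mul]
    ring
  rw [h1, norm_mul, norm_e, one_mul]

lemma ctr_mov_hull (V : Finset ℂ) (γ : ℝ) (τ : ℂ) (R : ℝ) :
    ctr (mov γ τ (hull V)) R = ctr (mov γ τ (V : Set ℂ)) R := by
  ext c
  constructor
  · intro h x hx
    obtain ⟨z, hz, rfl⟩ := hx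
    exact h _ ⟨z, subset_convexHull ℝ _ hz, rfl⟩
  · intro h x hx
    obtain ⟨z, hz, rfl⟩ := hx
    have h1 : (V : Set ℂ) ⊆ closedBall (e (-γ) * (c - τ)) R := by
      intro y hy
      rw [mem_closedBall, dist_eq_norm, ← norm_mov]
      exact h _ ⟨y, hy, rfl⟩
    have h2 := convexHull_min h1 (convex_closedBall _ _) hz
    rw [mem_closedBall, dist_eq_norm, ← norm_mov] at h2
    exact h2

lemma isCompact_mov {L : Set ℂ} (h : IsCompact L) (γ : ℝ) (τ : ℂ) : IsCompact (mov γ τ L) :=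
  h.image (by fun_prop)

lemma convex_mov {L : Set ℂ} (h : Convex ℝ L) (γ : ℝ) (τ : ℂ) : Convex ℝ (mov γ τ L) := by
  have h1 : mov γ τ L = (fun z => τ + z) '' ((LinearMap.mulLeft ℝ (e γ)) '' L) := by
    rw [Set.image_image]
    apply Set.image_congr
    intro z _
    show e γ * z + τ = τ + e γ * z
    ring
  rw [h1]
  exact (h.linear_image _).translate _

lemma mov_diam {L : Set ℂ} (h : ∀ x ∈ L, ∀ y ∈ L, ‖x - y‖ ≤ D) (γ : ℝ) (τ : ℂ) :
    ∀ x ∈ mov γ τ L, ∀ y ∈ mov γ τ L, ‖x - y‖ ≤ D := by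
  rintro _ ⟨x, hx, rfl⟩ _ ⟨y, hy, rfl⟩
  show ‖e γ * x + τ - (e γ * y + τ)‖ ≤ D
  rw [add_sub_add_right_eq_sub, ← mul_sub, norm_mul, norm_e, one_mul]
  exact h x hx y hy

lemma mov_width {L : Set ℂ} (hL : ∀ θ : ℝ, ∃ x ∈ L, ∃ y ∈ L, W ≤ ip x (e θ) - ip y (e θ))
    (γ : ℝ) (τ : ℂ) (θ : ℝ) : ∃ x ∈ mov γ τ L, ∃ y ∈ mov γ τ L, W ≤ ip x (e θ) - ip y (e θ) := by
  obtain ⟨x, hx, y, hy, h⟩ := hL (θ - γ)
  refine ⟨_, ⟨x, hx, rfl⟩, _, ⟨y, hy, rfl⟩, ?_⟩
  show W ≤ ip (e γ * x + τ) (e θ) - ip (e γ * y + τ) (e θ)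
  have h1 := ip_rot x γ (θ - γ)
  have h2 := ip_rot y γ (θ - γ)
  rw [add_sub_cancel] at h1 h2
  rw [ip_add_left, ip_add_left, h1, h2]
  linarith

/-- **No containment of the sets of centres** for polygons of diameter at most `D` and widths at
least `W`. -/
theorem no_containment_class (hp : Par R D W) {V U : Finset ℂ}
    (hVn : (hull V).Nonempty) (hUn : (hull U).Nonempty)
    (hVd : ∀ x ∈ hull V, ∀ y ∈ hull V, ‖x - y‖ ≤ D)
    (hVw : ∀ θ : ℝ, ∃ x ∈ hull V, ∃ y ∈ hull V, W ≤ ip x (e θ) - ip y (e θ))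
    (hUd : ∀ x ∈ hull U, ∀ y ∈ hull U, ‖x - y‖ ≤ D)
    (hUw : ∀ θ : ℝ, ∃ x ∈ hull U, ∃ y ∈ hull U, W ≤ ip x (e θ) - ip y (e θ))
    (γ : ℝ) (τ : ℂ) (h : Disjoint (hull V) (mov γ τ (hull U))) :
    ¬ (ctr V R ⊆ ctr (mov γ τ U) R) ∧ ¬ (ctr (mov γ τ U) R ⊆ ctr V R) := by
  constructor
  · intro hsub
    obtain ⟨c, hc, y, hy, hlt⟩ := exists_far hp (isCompact_hull V) (convex_hull V) hVn
      (isCompact_mov (isCompact_hull U) γ τ) (convex_mov (convex_hull U) γ τ) (hUn.image _)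
      hVd (mov_width hUw γ τ) h
    rw [ctr_hull] at hc
    have h1 := hsub hc
    rw [← ctr_mov_hull] at h1
    have := h1 y hy
    linarith
  · intro hsub
    obtain ⟨c, hc, y, hy, hlt⟩ := exists_far hp (isCompact_mov (isCompact_hull U) γ τ)
      (convex_mov (convex_hull U) γ τ) (hUn.image _) (isCompact_hull V) (convex_hull V) hVn
      (mov_diam hUd γ τ) hVw h.symm
    rw [ctr_mov_hull] at hc
    have h1 := hsub hc
    rw [← ctr_hull] at h1
    have := h1 y hy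
    linarith

end Pool.Agent.Helper72.PR
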