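import Pool.Agent.Helper79.MI.Supp
import Pool.Agent.Helper57.CW.HexBall

/-!
# A compact set of diameter at most `D` lies in a disk of radius `D / √3`

By Pal's theorem it lies in a regular hexagon of width `D`: the central lines of the three strips
of width `D` of normal directions `θ`, `θ + π/3`, `θ + 2π/3` centred at the set are concurrent for
a suitable `θ`.
-/

namespace Pool.Agent.Helper72.PR

open Pool.Agent.Helper16.Disk7 Pool.Agent.Helper57.CW Pool.Agent.Helper79.MI
open MeasureTheory Metric Complex Set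
open scoped ENNReal Pointwise

theorem supp_width_le {K : Set ℂ} (hc : IsCompact K) (hne : K.Nonempty) {D : ℝ}
    (hd : ∀ x ∈ K, ∀ y ∈ K, ‖x - y‖ ≤ D) (θ : ℝ) :
    supportFn K θ + supportFn K (θ + Real.pi) ≤ D := by
  obtain ⟨x, hx, h1⟩ := exists_attain hc hne θ
  obtain ⟨y, hy, h2⟩ := exists_attain hc hne (θ + Real.pi)
  rw [← h1, ← h2, e_add_pi, ip_neg_right]
  have h3 := ip_le_norm (x - y) (e θ) (norm_e θ)
  rw [ip_sub_left] at h3
  linarith [hd x hx y hy]

theorem jung {K : Set ℂ} (hK : IsCompact K) (hne : K.Nonempty) {D : ℝ}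
    (hd : ∀ x ∈ K, ∀ y ∈ K, ‖x - y‖ ≤ D) : ∃ c : ℂ, K ⊆ closedBall c (D / √3) := by
  set m : ℝ → ℝ := fun t => (supportFn K t - supportFn K (t + Real.pi)) / 2 with hm
  have hper : ∀ t, supportFn K (t + Real.pi + Real.pi) = supportFn K t := by
    intro t
    rw [add_assoc, ← two_mul]
    exact supportFn_periodic K t
  have hmπ : ∀ t, m (t + Real.pi) = - m t := by
    intro t
    simp only [hm, hper]
    ring
  have hcont : Continuous m := by
    have := supp_continuous hK hne
    rw [hm]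
    fun_prop
  obtain ⟨θ, hθ⟩ : ∃ θ, m θ - m (θ + Real.pi / 3) + m (θ + 2 * (Real.pi / 3)) = 0 := by
    set E : ℝ → ℝ := fun θ => m θ - m (θ + Real.pi / 3) + m (θ + 2 * (Real.pi / 3)) with hE
    have hEc : Continuous E := by
      rw [hE]
      fun_prop
    have h1 : E (0 + Real.pi) = -E 0 := by
      have e1 : (0 : ℝ) + Real.pi + Real.pi / 3 = (0 + Real.pi / 3) + Real.pi := by ring
      have e2 : (0 : ℝ) + Real.pi + 2 * (Real.pi / 3) = (0 + 2 * (Real.pi / 3)) + Real.pi := by ring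
      rw [hE]
      simp only
      rw [e1, e2, hmπ, hmπ, hmπ]
      ring
    have h2 : (0 : ℝ) ∈ Set.range E := by
      rcases le_total (E 0) 0 with h | h
      · exact mem_range_of_exists_le_of_exists_ge hEc ⟨0, h⟩ ⟨0 + Real.pi, by rw [h1]; linarith⟩
      · exact mem_range_of_exists_le_of_exists_ge hEc ⟨0 + Real.pi, by rw [h1]; linarith⟩ ⟨0, h⟩
    obtain ⟨θ, hθ⟩ := h2
    exact ⟨θ, hθ⟩
  -- the centre
  have hs3 : (0 : ℝ) < √3 / 2 := by positivity
  set a : ℝ := m θ with ha
  set b : ℝ := (m (θ + 2 * (Real.pi / 3)) + a / 2) / (√3 / 2) with hb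
  have hb' : b * (√3 / 2) = m (θ + 2 * (Real.pi / 3)) + a / 2 := by
    rw [hb, div_mul_cancel₀ _ hs3.ne']
  set c : ℂ := (a : ℂ) * e θ + (b : ℂ) * e (θ + Real.pi / 2) with hcdef
  have hip : ∀ t, ip c (e (θ + t)) = a * Real.cos t + b * Real.sin t := by
    intro t
    rw [hcdef, ip_add_left, ip_smul, ip_smul, ip_e_e, ip_e_e]
    have e1 : θ - (θ + t) = -t := by ring
    have e2 : θ + Real.pi / 2 - (θ + t) = Real.pi / 2 - t := by ring
    rw [e1, e2, Real.cos_neg, Real.cos_pi_div_two_sub]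
  have q0 : ip c (e (θ + 0)) = m (θ + 0) := by
    rw [hip, Real.cos_zero, Real.sin_zero, add_zero, ha]
    ring
  have q1 : ip c (e (θ + Real.pi / 3)) = m (θ + Real.pi / 3) := by
    rw [hip, Real.cos_pi_div_three, Real.sin_pi_div_three, hb']
    linarith
  have q2 : ip c (e (θ + 2 * (Real.pi / 3))) = m (θ + 2 * (Real.pi / 3)) := by
    have e1 : 2 * (Real.pi / 3) = Real.pi - Real.pi / 3 := by ring
    rw [hip]
    have e2 : Real.cos (2 * (Real.pi / 3)) = -(1 / 2) := by
      rw [e1, Real.cos_pi_sub, Real.cos_pi_div_three]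
    have e3 : Real.sin (2 * (Real.pi / 3)) = √3 / 2 := by
      rw [e1, Real.sin_pi_sub, Real.sin_pi_div_three]
    rw [e2, e3, hb']
    ring
  have hstep : ∀ t, ip c (e t) = m t → ip c (e (t + Real.pi)) = m (t + Real.pi) := by
    intro t ht
    rw [e_add_pi, ip_neg_right, ht, hmπ]
  have hall : ∀ j : ℕ, ip c (e (θ + 2 * (Real.pi / 6) * j)) = m (θ + 2 * (Real.pi / 6) * j) := by
    intro j
    induction j using Nat.strong_induction_on with
    | _ j ih =>
      match j with
      | 0 =>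
        have e1 : θ + 2 * (Real.pi / 6) * ((0 : ℕ) : ℝ) = θ + 0 := by push_cast; ring
        rw [e1]; exact q0
      | 1 =>
        have e1 : θ + 2 * (Real.pi / 6) * ((1 : ℕ) : ℝ) = θ + Real.pi / 3 := by push_cast; ring
        rw [e1]; exact q1
      | 2 =>
        have e1 : θ + 2 * (Real.pi / 6) * ((2 : ℕ) : ℝ) = θ + 2 * (Real.pi / 3) := by
          push_cast; ring
        rw [e1]; exact q2
      | n + 3 =>
        have e1 : θ + 2 * (Real.pi / 6) * ((n + 3 : ℕ) : ℝ) =
            (θ + 2 * (Real.pi / 6) * (n : ℝ)) + Real.pi := by push_cast; ring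
        rw [e1]
        exact hstep _ (ih n (by omega))
  refine ⟨c, fun z hz => ?_⟩
  rw [mem_closedBall, dist_eq_norm]
  have h1 : ‖e (-θ) * (z - c)‖ ≤ 2 / √3 * (D / 2) := by
    apply norm_le_of_hexagon
    intro j
    rw [ip_rot_neg, ip_sub_left, add_comm (2 * (Real.pi / 6) * (j : ℝ)) θ, hall]
    have h2 := ip_le_supp hK hz (θ + 2 * (Real.pi / 6) * j)
    have h3 := supp_width_le hK hne hd (θ + 2 * (Real.pi / 6) * j)
    simp only [hm]
    linarith
  rw [norm_mul, norm_e, one_mul] at h1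
  calc ‖z - c‖ ≤ 2 / √3 * (D / 2) := h1
    _ = D / √3 := by ring

end Pool.Agent.Helper72.PR
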