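import Pool.Agent.Helper72.PR.Omega

/-!
# The ring for bodies of diameter at most `2.0107` and widths at least `1.85`

`R = 1 + 1 / sin (π / n)`, `n = 5, 6, 7, 8`.
-/

namespace Pool.Agent.Helper72.PR

open Pool.Agent.Helper16.Disk7 Pool.Agent.Helper57.CW Pool.Agent.Helper79.MI
open MeasureTheory Metric Complex Set
open scoped ENNReal Pointwise

variable {R : ℝ}

theorem par_class (hR : 2.4 ≤ R) : Par R 2.0107 1.85 where
  D_pos := by norm_num
  D_lt := by linarith
  W_pos := by norm_num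
  W_le := by linarith
  cap := by
    apply Real.lt_sqrt_of_sq_lt
    nlinarith

lemma kap_le_of {R D W : ℝ} (hp : Par R D W) {γ : ℝ} (h0 : 0 ≤ γ) (h1 : γ ≤ Real.pi / 2)
    (h : (Real.cos γ * R) ^ 2 ≤ R ^ 2 - D ^ 2) : kap R D ≤ γ := by
  have hR := hp.R_pos
  have hπ := Real.pi_pos
  have h2 : |kap R D| ≤ γ := by
    apply abs_le_of_cos_ge h0 (by linarith)
    · rw [abs_of_pos hp.kap_pos]
      linarith [hp.kap_lt]
    · rw [hp.cos_kap, le_div_iff₀ hR]
      exact Real.le_sqrt_of_sq_le h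
  rwa [abs_of_pos hp.kap_pos] at h2

/-- The condition on `b0` in half angles. -/
lemma b0_cond {x b0 : ℝ} (hx0 : 0 < x) (hx : x < Real.pi / 2)
    (h : Real.sin x ≤ (2 * x - b0) * Real.cos x) :
    b0 * Real.sin (2 * x) ≤ 2 * x * Real.sin (2 * x) - (1 - Real.cos (2 * x)) := by
  have hs : 0 < Real.sin x := Real.sin_pos_of_pos_of_lt_pi hx0 (by linarith [Real.pi_pos])
  have h1 : Real.sin (2 * x) = 2 * Real.sin x * Real.cos x := Real.sin_two_mul x
  have h2 : 1 - Real.cos (2 * x) = 2 * Real.sin x ^ 2 := by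
    rw [Real.cos_two_mul]
    have := Real.sin_sq_add_cos_sq x
    linarith
  rw [h1, h2]
  nlinarith

lemma cos_b0_le {b c : ℝ} (h0 : 0 ≤ b) (h1 : b ≤ 1) (h : 1 - b ^ 2 / 2 + b ^ 4 * (5 / 96) ≤ c) :
    Real.cos b ≤ c := by
  have h4 := (abs_le.1 (Real.cos_bound (x := b) (by rw [abs_of_nonneg h0]; exact h1))).2
  rw [abs_of_nonneg h0] at h4
  linarith

/-- The hypotheses of `ring_of_cos`. -/
structure Num (n : ℕ) (R D W b0 : ℝ) : Prop where
  hcot : 0.3249 * Real.sin (2 * Real.pi / n) ≤ Real.cos (2 * Real.pi / n)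
  hb1 : b0 * Real.sin (2 * Real.pi / n) ≤
    2 * Real.pi / n * Real.sin (2 * Real.pi / n) - (1 - Real.cos (2 * Real.pi / n))
  hκ : 2 * kap R D ≤ 2 * Real.pi / n + 0.89
  hb0 : 0 ≤ b0
  hbπ : b0 ≤ Real.pi
  hb : 2 * (R - W) * R * Real.cos b0 ≤ (R - W) ^ 2 + R ^ 2 - D ^ 2

theorem R_ge_five : (2.7 : ℝ) ≤ 1 + 1 / Real.sin (Real.pi / (5 : ℕ)) := by
  have h5 : Real.cos (Real.pi / 5) = (1 + √5) / 4 := Real.cos_pi_div_five
  have hs5 : √5 ^ 2 = 5 := Real.sq_sqrt (by norm_num)
  have hs5' : (2.236067 : ℝ) ≤ √5 := Real.le_sqrt_of_sq_le (by norm_num)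
  have hs : 0 < Real.sin (Real.pi / 5) := Real.sin_pos_of_pos_of_lt_pi (by positivity)
    (by linarith [Real.pi_pos])
  have hsq : Real.sin (Real.pi / 5) ^ 2 = 1 - ((1 + √5) / 4) ^ 2 := by
    rw [← h5]
    have := Real.sin_sq_add_cos_sq (Real.pi / 5)
    linarith
  have hle : Real.sin (Real.pi / 5) ≤ 10 / 17 := by
    apply le_of_sq_le_sq _ (by norm_num)
    rw [hsq]
    nlinarith
  push_cast
  have : (1.7 : ℝ) ≤ 1 / Real.sin (Real.pi / 5) := by
    rw [le_div_iff₀ hs]
    linarith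
  linarith

theorem num_five (hR : R = 1 + 1 / Real.sin (Real.pi / (5 : ℕ))) :
    Num 5 R 2.0107 1.85 0.528 := by
  have hR' : 2.7 ≤ R := hR ▸ R_ge_five
  have h5 : Real.cos (Real.pi / 5) = (1 + √5) / 4 := Real.cos_pi_div_five
  have hs5 : √5 ^ 2 = 5 := Real.sq_sqrt (by norm_num)
  have hs5' : (2.236067 : ℝ) ≤ √5 := Real.le_sqrt_of_sq_le (by norm_num)
  have hs : 0 < Real.sin (Real.pi / 5) := Real.sin_pos_of_pos_of_lt_pi (by positivity)
    (by linarith [Real.pi_pos])
  have hsq : Real.sin (Real.pi / 5) ^ 2 = 1 - ((1 + √5) / 4) ^ 2 := by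
    rw [← h5]
    have := Real.sin_sq_add_cos_sq (Real.pi / 5)
    linarith
  have hle : Real.sin (Real.pi / 5) ≤ 10 / 17 := by
    apply le_of_sq_le_sq _ (by norm_num)
    rw [hsq]
    nlinarith
  have h2x : 2 * Real.pi / (5 : ℕ) = 2 * (Real.pi / 5) := by push_cast; ring
  have hπ := Real.pi_gt_d6
  have hπ2 := Real.pi_lt_d6
  have hp := par_class (R := R) (by linarith)
  refine ⟨?_, ?_, ?_, by norm_num, by linarith, ?_⟩
  · rw [h2x]
    have hc2 : Real.cos (2 * (Real.pi / 5)) = (√5 - 1) / 4 := by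
      rw [Real.cos_two_mul, h5]
      nlinarith
    have hs2 : Real.sin (2 * (Real.pi / 5)) ≤ 0.95109 := by
      apply le_of_sq_le_sq _ (by norm_num)
      have h6 : Real.sin (2 * (Real.pi / 5)) ^ 2 = 1 - ((√5 - 1) / 4) ^ 2 := by
        rw [← hc2]
        have := Real.sin_sq_add_cos_sq (2 * (Real.pi / 5))
        linarith
      rw [h6]
      have h7 : √5 ≤ 2.236068 := by
        rw [Real.sqrt_le_left (by norm_num)]
        norm_num
      nlinarith
    rw [hc2]
    linarith
  · rw [h2x]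
    apply b0_cond (by positivity) (by linarith)
    rw [h5]
    have : (0.809 : ℝ) ≤ (1 + √5) / 4 := by linarith
    nlinarith
  · have := kap_le_of hp (γ := Real.pi / 3) (by positivity) (by linarith) (by
      rw [Real.cos_pi_div_three]
      nlinarith)
    rw [h2x]
    linarith
  · have hc := cos_b0_le (b := 0.528) (c := 0.8647) (by norm_num) (by norm_num) (by norm_num)
    have h1 : 0 ≤ 2 * (R - 1.85) * R := by
      have : 0 ≤ R - 1.85 := by linarith
      positivity
    have h2 := mul_le_mul_of_nonneg_left hc h1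
    nlinarith

theorem num_six (hR : R = 1 + 1 / Real.sin (Real.pi / (6 : ℕ))) :
    Num 6 R 2.0107 1.85 0.46 := by
  have h6 : Real.sin (Real.pi / 6) = 1 / 2 := Real.sin_pi_div_six
  have hR' : R = 3 := by
    rw [hR]
    push_cast
    rw [h6]
    norm_num
  have h2x : 2 * Real.pi / (6 : ℕ) = 2 * (Real.pi / 6) := by push_cast; ring
  have h2x' : 2 * (Real.pi / 6) = Real.pi / 3 := by ring
  have hπ := Real.pi_gt_d6
  have hπ2 := Real.pi_lt_d6
  have hp := par_class (R := R) (by linarith)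
  refine ⟨?_, ?_, ?_, by norm_num, by linarith, ?_⟩
  · rw [h2x, h2x', Real.cos_pi_div_three]
    have := Real.sin_le_one (Real.pi / 3)
    linarith
  · rw [h2x]
    apply b0_cond (by positivity) (by linarith)
    rw [h6, Real.cos_pi_div_six]
    have : (1.732 : ℝ) ≤ √3 := Real.le_sqrt_of_sq_le (by norm_num)
    nlinarith
  · have := kap_le_of hp (γ := Real.pi / 4) (by positivity) (by linarith) (by
      rw [Real.cos_pi_div_four, hR', mul_pow, div_pow, Real.sq_sqrt (by norm_num)]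
      norm_num)
    rw [h2x]
    linarith
  · have hc := cos_b0_le (b := 0.46) (c := 0.8966) (by norm_num) (by norm_num) (by norm_num)
    have h1 : 0 ≤ 2 * (R - 1.85) * R := by
      have : 0 ≤ R - 1.85 := by linarith
      rw [hR']; norm_num
    have h2 := mul_le_mul_of_nonneg_left hc h1
    rw [hR'] at h2 ⊢
    nlinarith

/-- Upper bound for the sine. -/
lemma sin_le_of {x a b c : ℝ} (h0 : 0 ≤ a) (h1 : a ≤ x) (h2 : x ≤ b) (h3 : b ≤ 1)
    (h : b - a ^ 3 / 6 + b ^ 5 / 100 ≤ c) : Real.sin x ≤ c := by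
  have hx0 : 0 ≤ x := h0.trans h1
  have h4 := (abs_le.1 (Real.sin_bound (x := x) (by rw [abs_of_nonneg hx0]; linarith))).2
  rw [abs_of_nonneg hx0] at h4
  have h5 : a ^ 3 ≤ x ^ 3 := pow_le_pow_left₀ h0 h1 3
  have h6 : x ^ 5 ≤ b ^ 5 := pow_le_pow_left₀ hx0 h2 5
  linarith

theorem sin_seven_le : Real.sin (Real.pi / 7) ≤ 0.4366 := by
  have hπ := Real.pi_gt_d6
  have hπ2 := Real.pi_lt_d6
  exact sin_le_of (a := 0.4487) (b := 0.4489) (by norm_num) (by linarith) (by linarith)
    (by norm_num) (by norm_num)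

theorem sin_eight_le : Real.sin (Real.pi / 8) ≤ 0.3845 := by
  have hπ := Real.pi_gt_d6
  have hπ2 := Real.pi_lt_d6
  exact sin_le_of (a := 0.3926) (b := 0.3928) (by norm_num) (by linarith) (by linarith)
    (by norm_num) (by norm_num)

theorem R_ge_seven : (3.29 : ℝ) ≤ 1 + 1 / Real.sin (Real.pi / (7 : ℕ)) := by
  have hs : 0 < Real.sin (Real.pi / 7) := Real.sin_pos_of_pos_of_lt_pi (by positivity)
    (by linarith [Real.pi_pos])
  have h1 := sin_seven_le
  push_cast
  have : (2.29 : ℝ) ≤ 1 / Real.sin (Real.pi / 7) := by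
    rw [le_div_iff₀ hs]
    linarith
  linarith

theorem R_ge_eight : (3.6 : ℝ) ≤ 1 + 1 / Real.sin (Real.pi / (8 : ℕ)) := by
  have hs : 0 < Real.sin (Real.pi / 8) := Real.sin_pos_of_pos_of_lt_pi (by positivity)
    (by linarith [Real.pi_pos])
  have h1 := sin_eight_le
  push_cast
  have : (2.6 : ℝ) ≤ 1 / Real.sin (Real.pi / 8) := by
    rw [le_div_iff₀ hs]
    linarith
  linarith

theorem num_seven (hR : R = 1 + 1 / Real.sin (Real.pi / (7 : ℕ))) :
    Num 7 R 2.0107 1.85 0.38 := by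
  have hR' : 3.29 ≤ R := hR ▸ R_ge_seven
  have h2x : 2 * Real.pi / (7 : ℕ) = 2 * (Real.pi / 7) := by push_cast; ring
  have hπ := Real.pi_gt_d6
  have hπ2 := Real.pi_lt_d6
  have hp := par_class (R := R) (by linarith)
  have hcos := Real.one_sub_sq_div_two_le_cos (x := Real.pi / 7)
  have hcos2 := Real.one_sub_sq_div_two_le_cos (x := 2 * (Real.pi / 7))
  refine ⟨?_, ?_, ?_, by norm_num, by linarith, ?_⟩
  · rw [h2x]
    have := Real.sin_le_one (2 * (Real.pi / 7))
    nlinarith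
  · rw [h2x]
    apply b0_cond (by positivity) (by linarith)
    have h1 := sin_seven_le
    have h3 : (0.899 : ℝ) ≤ Real.cos (Real.pi / 7) := by nlinarith
    nlinarith
  · have := kap_le_of hp (γ := Real.pi / 4) (by positivity) (by linarith) (by
      rw [Real.cos_pi_div_four, mul_pow, div_pow, Real.sq_sqrt (by norm_num)]
      nlinarith)
    rw [h2x]
    linarith
  · have hc := cos_b0_le (b := 0.38) (c := 0.929) (by norm_num) (by norm_num) (by norm_num)
    have h1 : 0 ≤ 2 * (R - 1.85) * R := by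
      have : 0 ≤ R - 1.85 := by linarith
      positivity
    have h2 := mul_le_mul_of_nonneg_left hc h1
    nlinarith

theorem num_eight (hR : R = 1 + 1 / Real.sin (Real.pi / (8 : ℕ))) :
    Num 8 R 2.0107 1.85 0.36 := by
  have hR' : 3.6 ≤ R := hR ▸ R_ge_eight
  have h2x : 2 * Real.pi / (8 : ℕ) = 2 * (Real.pi / 8) := by push_cast; ring
  have hπ := Real.pi_gt_d6
  have hπ2 := Real.pi_lt_d6
  have hp := par_class (R := R) (by linarith)
  have hcos := Real.one_sub_sq_div_two_le_cos (x := Real.pi / 8)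
  have hcos2 := Real.one_sub_sq_div_two_le_cos (x := 2 * (Real.pi / 8))
  refine ⟨?_, ?_, ?_, by norm_num, by linarith, ?_⟩
  · rw [h2x]
    have := Real.sin_le_one (2 * (Real.pi / 8))
    nlinarith
  · rw [h2x]
    apply b0_cond (by positivity) (by linarith)
    have h1 := sin_eight_le
    have h3 : (0.922 : ℝ) ≤ Real.cos (Real.pi / 8) := by nlinarith
    nlinarith
  · have := kap_le_of hp (γ := Real.pi / 4) (by positivity) (by linarith) (by
      rw [Real.cos_pi_div_four, mul_pow, div_pow, Real.sq_sqrt (by norm_num)]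
      nlinarith)
    rw [h2x]
    linarith
  · have hc := cos_b0_le (b := 0.36) (c := 0.9361) (by norm_num) (by norm_num) (by norm_num)
    have h1 : 0 ≤ 2 * (R - 1.85) * R := by
      have : 0 ≤ R - 1.85 := by linarith
      positivity
    have h2 := mul_le_mul_of_nonneg_left hc h1
    nlinarith

/-- **The ring in the class of bodies of diameter at most `2.0107` and widths at least `1.85`.** -/
theorem ring_class {n : ℕ} [NeZero n] (h5 : 5 ≤ n) (h8 : n ≤ 8)
    (hR : R = 1 + 1 / Real.sin (Real.pi / n)) (K : Fin n → Set ℂ)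
    (hK : ∀ i, Body R 2.0107 1.85 (K i)) (hi : ∀ i, (interior (K i)).Nonempty)
    (h : n * Real.cos (2 * Real.pi / n) ≤ ∑ i, Real.cos (psi (K i) (K (i + 1)))) :
    ∃ α : Fin n → ℝ, ∀ i j, i ≠ j →
      Disjoint (interior (rot (α i) (K i))) (interior (rot (α j) (K j))) := by
  obtain ⟨b0, hnum, hR24⟩ : ∃ b0, Num n R 2.0107 1.85 b0 ∧ 2.4 ≤ R := by
    interval_cases n
    · exact ⟨_, num_five hR, by have := R_ge_five; rw [hR]; linarith⟩
    · refine ⟨_, num_six hR, ?_⟩
      have h6 : Real.sin (Real.pi / 6) = 1 / 2 := Real.sin_pi_div_six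
      rw [hR]
      push_cast
      rw [h6]
      norm_num
    · exact ⟨_, num_seven hR, by have := R_ge_seven; rw [hR]; linarith⟩
    · exact ⟨_, num_eight hR, by have := R_ge_eight; rw [hR]; linarith⟩
  exact ring_of_cos (par_class hR24) (by omega) rfl hnum.hcot hnum.hb1 hnum.hκ hnum.hb0 hnum.hbπ
    hnum.hb K hK hi h

end Pool.Agent.Helper72.PR
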