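import Pool.Agent.Helper72.PR.Ring

/-!
# From the contact angles to the ring

`n cos (2π/n) ≤ ∑ cos ψ i` and `0 ≤ ψ i ≤ 2π/n + 0.89` imply `∑ max (ψ i) b ≤ 2π`, if `b` is
small (tangent inequality for the cosine).
-/

namespace Pool.Agent.Helper72.PR

open Pool.Agent.Helper16.Disk7 Pool.Agent.Helper57.CW Pool.Agent.Helper79.MI
open MeasureTheory Metric Complex Set
open scoped ENNReal Pointwise

variable {R D W : ℝ}

/-- Tangent inequality for the cosine. -/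
lemma cos_le_tangent {Θ ψ : ℝ} (hΘ0 : 0 < Θ) (hΘ : Θ ≤ Real.pi / 2)
    (hcot : 0.3249 * Real.sin Θ ≤ Real.cos Θ) (h1 : ψ ≤ Θ + 0.89) :
    Real.cos ψ ≤ Real.cos Θ - Real.sin Θ * (ψ - Θ) := by
  obtain ⟨t, rfl⟩ : ∃ t, ψ = Θ + t := ⟨ψ - Θ, by ring⟩
  have hs : 0 < Real.sin Θ := Real.sin_pos_of_pos_of_lt_pi hΘ0 (by linarith [Real.pi_pos])
  have hc : 0 < Real.cos Θ := by nlinarith
  rw [Real.cos_add, add_sub_cancel_left]
  have hct : Real.cos t ≤ 1 := Real.cos_le_one t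
  suffices h : 0 ≤ Real.cos Θ * (1 - Real.cos t) + Real.sin Θ * (Real.sin t - t) by linarith
  rcases le_or_gt t 0 with ht | ht
  · have h3 : t ≤ Real.sin t := by
      have := Real.sin_le (show 0 ≤ -t by linarith)
      rw [Real.sin_neg] at this
      linarith
    have h4 : 0 ≤ Real.cos Θ * (1 - Real.cos t) := mul_nonneg hc.le (by linarith)
    have h5 : 0 ≤ Real.sin Θ * (Real.sin t - t) := mul_nonneg hs.le (by linarith)
    linarith
  · have ht1 : t ≤ 0.89 := by linarith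
    have h3 : t - t ^ 3 / 6 ≤ Real.sin t := (Real.sin_gt_sub_cube ht).le
    have h4 := (abs_le.1 (Real.cos_bound (x := t) (by rw [abs_of_pos ht]; linarith))).2
    rw [abs_of_pos ht] at h4
    have h5 : t ^ 2 / 2 - t ^ 4 * (5 / 96) ≤ 1 - Real.cos t := by linarith
    have h6 : 0 ≤ t ^ 2 / 2 - t ^ 4 * (5 / 96) := by
      have h10 : t ^ 2 / 2 - t ^ 4 * (5 / 96) = t ^ 2 * (1 / 2 - 5 / 96 * t ^ 2) := by ring
      rw [h10]
      apply mul_nonneg (sq_nonneg t)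
      nlinarith
    have h7 : 0.3249 * Real.sin Θ * (t ^ 2 / 2 - t ^ 4 * (5 / 96)) ≤
        Real.cos Θ * (1 - Real.cos t) :=
      mul_le_mul hcot h5 h6 hc.le
    have h8 : Real.sin Θ * (-(t ^ 3 / 6)) ≤ Real.sin Θ * (Real.sin t - t) :=
      mul_le_mul_of_nonneg_left (by linarith) hs.le
    have h9 : 0 ≤ 0.3249 * (t ^ 2 / 2 - t ^ 4 * (5 / 96)) - t ^ 3 / 6 := by
      have h10 : 0.3249 * (t ^ 2 / 2 - t ^ 4 * (5 / 96)) - t ^ 3 / 6 =
          t ^ 2 * (0.3249 * (1 / 2 - 5 / 96 * t ^ 2) - t / 6) := by ring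
      rw [h10]
      apply mul_nonneg (sq_nonneg t)
      nlinarith
    nlinarith

/-- The choice of the angles between the contact directions. -/
theorem exists_omega {n : ℕ} [NeZero n] (hn : 4 ≤ n) {Θ b0 : ℝ} (hΘ : Θ = 2 * Real.pi / n)
    (hcot : 0.3249 * Real.sin Θ ≤ Real.cos Θ)
    (hb : b0 * Real.sin Θ ≤ Θ * Real.sin Θ - (1 - Real.cos Θ)) (ψ : Fin n → ℝ)
    (h1 : ∀ i, ψ i ≤ Θ + 0.89) (hsum : n * Real.cos Θ ≤ ∑ i, Real.cos (ψ i)) :
    ∃ ω : Fin n → ℝ, (∀ i, ψ i ≤ ω i) ∧ (∀ i, b0 ≤ ω i) ∧ ∑ i, ω i = 2 * Real.pi := by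
  have hπ := Real.pi_pos
  have hn0 : (0 : ℝ) < n := by exact_mod_cast (by omega : 0 < n)
  have hn4 : (4 : ℝ) ≤ n := by exact_mod_cast hn
  have hΘ0 : 0 < Θ := by rw [hΘ]; positivity
  have hΘ2 : Θ ≤ Real.pi / 2 := by
    rw [hΘ, div_le_div_iff₀ hn0 two_pos]
    nlinarith
  have hs : 0 < Real.sin Θ := Real.sin_pos_of_pos_of_lt_pi hΘ0 (by linarith)
  have hmax : ∀ i, Real.sin Θ * (max (ψ i) b0 - Θ) ≤ Real.cos Θ - Real.cos (ψ i) := by
    intro i
    rcases le_total (ψ i) b0 with h | h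
    · rw [max_eq_right h]
      have := Real.cos_le_one (ψ i)
      nlinarith
    · rw [max_eq_left h]
      have := cos_le_tangent hΘ0 hΘ2 hcot (h1 i)
      linarith
  have hle : ∑ i, max (ψ i) b0 ≤ 2 * Real.pi := by
    have h2 : ∑ i, Real.sin Θ * (max (ψ i) b0 - Θ) ≤ ∑ i, (Real.cos Θ - Real.cos (ψ i)) :=
      Finset.sum_le_sum fun i _ => hmax i
    rw [← Finset.mul_sum, Finset.sum_sub_distrib, Finset.sum_sub_distrib] at h2
    simp only [Finset.sum_const, Finset.card_univ, Fintype.card_fin, nsmul_eq_mul] at h2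
    have h3 : Real.sin Θ * (∑ i, max (ψ i) b0 - n * Θ) ≤ 0 := by linarith
    have h4 : ∑ i, max (ψ i) b0 - n * Θ ≤ 0 := by
      by_contra hcon
      push Not at hcon
      nlinarith
    have h5 : n * Θ = 2 * Real.pi := by rw [hΘ]; field_simp
    linarith
  refine ⟨fun i => max (ψ i) b0 + (2 * Real.pi - ∑ j, max (ψ j) b0) / n, fun i => ?_,
    fun i => ?_, ?_⟩
  · have := le_max_left (ψ i) b0
    have h2 : 0 ≤ (2 * Real.pi - ∑ j, max (ψ j) b0) / n := div_nonneg (by linarith) hn0.le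
    linarith
  · have := le_max_right (ψ i) b0
    have h2 : 0 ≤ (2 * Real.pi - ∑ j, max (ψ j) b0) / n := div_nonneg (by linarith) hn0.le
    linarith
  · rw [Finset.sum_add_distrib, Finset.sum_const, Finset.card_univ, Fintype.card_fin,
      nsmul_eq_mul]
    field_simp
    ring

/-- **The ring from the sum of the cosines of the contact angles.** -/
theorem ring_of_cos (hp : Par R D W) {n : ℕ} [NeZero n] (hn : 4 ≤ n) {Θ b0 : ℝ}
    (hΘ : Θ = 2 * Real.pi / n) (hcot : 0.3249 * Real.sin Θ ≤ Real.cos Θ)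
    (hb1 : b0 * Real.sin Θ ≤ Θ * Real.sin Θ - (1 - Real.cos Θ))
    (hκ : 2 * kap R D ≤ Θ + 0.89) (hb0 : 0 ≤ b0) (hbπ : b0 ≤ Real.pi)
    (hb : 2 * (R - W) * R * Real.cos b0 ≤ (R - W) ^ 2 + R ^ 2 - D ^ 2)
    (K : Fin n → Set ℂ) (hK : ∀ i, Body R D W (K i)) (hi : ∀ i, (interior (K i)).Nonempty)
    (h : n * Real.cos Θ ≤ ∑ i, Real.cos (psi (K i) (K (i + 1)))) :
    ∃ α : Fin n → ℝ, ∀ i j, i ≠ j →
      Disjoint (interior (rot (α i) (K i))) (interior (rot (α j) (K j))) := by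
  obtain ⟨ω, h1, h2, h3⟩ := exists_omega hn hΘ hcot hb1 (fun i => psi (K i) (K (i + 1)))
    (fun i => (psi_le_two_kap hp (hK i) (hK (i + 1))).trans hκ) h
  exact ⟨fun i => ang ω i, ring hp hb0 hbπ hb K hK hi ω h1 (fun i => hb0.trans (h2 i)) h3
    (fun i => by linarith [h2 i, h2 (i + 1)])⟩

end Pool.Agent.Helper72.PR
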