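import Pool.Agent.Helper72.PR.Up

/-!
# Rings of bodies

`K i` are bodies in the disk of centre `0` and radius `R` touching its boundary at the point `R`,
`psi (K i) (K (i + 1)) ≤ ω i`, `∑ ω i = 2π`, `ω i + ω (i + 1) ≥ 2 b`, where `b` bounds the polar
angles of the points of norm at most `R - W`. Then the bodies `rot (α i) (K i)`,
`α i = ω 0 + … + ω (i - 1)`, have pairwise disjoint interiors.
-/

namespace Pool.Agent.Helper72.PR

open Pool.Agent.Helper16.Disk7 Pool.Agent.Helper57.CW Pool.Agent.Helper79.MI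
open MeasureTheory Metric Complex Set
open scoped ENNReal Pointwise

variable {R D W : ℝ}

lemma e_zero : e 0 = 1 := by
  apply Complex.ext
  · rw [e_re, Real.cos_zero, Complex.one_re]
  · rw [e_im, Real.sin_zero, Complex.one_im]

/-- The pair inequality: a point of `K` and a point of `L` of the same norm. -/
theorem pair_le (hp : Par R D W) {K L : Set ℂ} (hK : Body R D W K) (hL : Body R D W L)
    {r a b ω : ℝ} (hω : psi K L ≤ ω) (ha : |a| ≤ kap R D) (hb : |b| ≤ kap R D)
    (h1 : (r : ℂ) * e a ∈ K) (h2 : (r : ℂ) * e b ∈ L) : a - b ≤ ω := by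
  by_contra hcon
  push Not at hcon
  have hκ := hp.kap_lt
  have ha' := abs_le.1 ha
  have hb' := abs_le.1 hb
  have hlt : psi K L < a - b := lt_of_le_of_lt hω hcon
  have hne : ({w | 0 < w ∧ w < Real.pi ∧ Disjoint K (rot w L)} ∪ {Real.pi} : Set ℝ).Nonempty :=
    ⟨Real.pi, Or.inr rfl⟩
  obtain ⟨w, hw, hw2⟩ := exists_lt_of_csInf_lt hne hlt
  rcases hw with ⟨hw0, hwπ, hdis⟩ | hw
  · have h3 := up_set hp hK hL hw0 hw2.le (by linarith [ha'.2, hb'.1]) hdis
    refine Set.disjoint_left.1 h3 h1 ⟨_, h2, ?_⟩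
    show e (a - b) * ((r : ℂ) * e b) = _
    rw [mul_left_comm, e_mul, sub_add_cancel]
  · rw [Set.mem_singleton_iff] at hw
    linarith [ha'.2, hb'.1]

/-- The contact angle is at most twice `kap`. -/
theorem psi_le_two_kap (hp : Par R D W) {K L : Set ℂ} (hK : Body R D W K) (hL : Body R D W L) :
    psi K L ≤ 2 * kap R D := by
  have hκ := hp.kap_lt
  have hκ0 := hp.kap_pos
  apply le_of_forall_gt_imp_ge_of_dense
  intro w hw
  rcases lt_or_ge w Real.pi with h | h
  · apply csInf_le
    · refine ⟨0, ?_⟩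
      rintro x (⟨hx, -⟩ | hx)
      · exact hx.le
      · rw [Set.mem_singleton_iff] at hx
        rw [hx]; exact Real.pi_pos.le
    · left
      refine ⟨by linarith, h, ?_⟩
      rw [Set.disjoint_left]
      rintro x hxK ⟨y, hy, hyx⟩
      obtain ⟨r, a, hr, -, ha, rfl⟩ := hK.polar hp hxK
      obtain ⟨r', b, hr', -, hb, rfl⟩ := hL.polar hp hy
      have hyx' : e w * ((r' : ℂ) * e b) = (r : ℂ) * e a := hyx
      have hrr : r' = r := by
        have := congrArg norm hyx'
        rwa [norm_mul, norm_mul, norm_mul, norm_e, norm_e, norm_e, one_mul, mul_one, mul_one,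
          Complex.norm_real, Complex.norm_real, Real.norm_eq_abs, Real.norm_eq_abs,
          abs_of_pos hr, abs_of_pos hr'] at this
      subst hrr
      have h3 : (r' : ℂ) * e (a - w) ∈ L := by
        have h4 : (r' : ℂ) * e (a - w) = (r' : ℂ) * e b := by
          have h5 : e (-w) * (e w * ((r' : ℂ) * e b)) = e (-w) * ((r' : ℂ) * e a) := by rw [hyx']
          rw [← mul_assoc, e_mul, neg_add_cancel, e_zero, one_mul] at h5
          rw [h5, mul_left_comm, e_mul]
          congr 2
          ring
        rw [h4]; exact hy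
      have ha' := abs_le.1 ha
      have h4 := hL.cos_ge_kap hp hr h3
      have h5 := abs_le_of_cos_ge' hκ0.le hκ (by rw [abs_lt]; constructor <;> linarith) h4
      have h6 := abs_le.1 h5
      linarith
  · refine le_trans (csInf_le ?_ (Or.inr rfl)) h
    refine ⟨0, ?_⟩
    rintro x (⟨hx, -⟩ | hx)
    · exact hx.le
    · rw [Set.mem_singleton_iff] at hx
      rw [hx]; exact Real.pi_pos.le

/-- Bodies reach all the radii larger than `R - W`. -/
theorem reach (hp : Par R D W) {K : Set ℂ} (hK : Body R D W K) (hi : (interior K).Nonempty)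
    {r : ℝ} (h1 : R - W < r) (h2 : r < R) : ∃ a, (r : ℂ) * e a ∈ interior K ∧ |a| ≤ kap R D := by
  have hR := hp.R_pos
  have hr0 : 0 < r := by linarith [hp.W_le]
  have hcl : closure (interior K) = K := by
    rw [hK.convex.closure_interior_eq_closure_of_nonempty_interior hi,
      hK.isCompact.isClosed.closure_eq]
  -- the nearest point
  obtain ⟨y, hy, hmin⟩ := hK.isCompact.exists_isMinOn ⟨_, hK.touch⟩ continuous_norm.continuousOn
  have hy0 : y ≠ 0 := fun h => zero_notMem hp hK (h ▸ hy)
  obtain ⟨ρ, t, hρ, -, hyt, hρn⟩ := polar y hy0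
  have hn : ‖y‖ ≤ R - W := by
    obtain ⟨x, hx, x', hx', hw⟩ := hK.width t
    have h3 := ip_le_R hK.sub hx t
    have h4 : ρ ≤ ip x' (e t) := by
      by_contra hcon
      push Not at hcon
      -- moving from `y` towards `x'` decreases the norm
      set q : ℝ := ‖x' - y‖ ^ 2 with hq
      have hip : ip (x' - y) (e t) < 0 := by
        have : ip y (e t) = ρ := by rw [hyt, ip_polar, sub_self, Real.cos_zero, mul_one]
        rw [ip_sub_left, this]
        linarith
      set v : ℝ := ip (x' - y) (e t) with hv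
      have key : ∀ s : ℝ, 0 ≤ s → s ≤ 1 → 0 ≤ 2 * s * ρ * v + s ^ 2 * q := by
        intro s hs0 hs1
        have hmem : y + (s : ℂ) * (x' - y) ∈ K := by
          have := hK.convex.add_smul_sub_mem hy hx' ⟨hs0, hs1⟩
          rwa [Complex.real_smul] at this
        have h5 : ‖y‖ ≤ ‖y + (s : ℂ) * (x' - y)‖ := hmin hmem
        have h6 : ‖y + (s : ℂ) * (x' - y)‖ ^ 2 = ‖y‖ ^ 2 + (2 * s * ρ * v + s ^ 2 * q) := by
          rw [hq, hv, ← Complex.normSq_eq_norm_sq, ← Complex.normSq_eq_norm_sq,
            ← Complex.normSq_eq_norm_sq, ip_e]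
          have hyr : y.re = ρ * Real.cos t := by
            rw [hyt, Complex.mul_re, Complex.ofReal_re, Complex.ofReal_im, e_re]; ring
          have hyi : y.im = ρ * Real.sin t := by
            rw [hyt, Complex.mul_im, Complex.ofReal_re, Complex.ofReal_im, e_im]; ring
          simp only [Complex.normSq_apply, Complex.add_re, Complex.add_im, Complex.mul_re,
            Complex.mul_im, Complex.ofReal_re, Complex.ofReal_im, Complex.sub_re, Complex.sub_im,
            hyr, hyi]
          ring
        have h7 : ‖y‖ ^ 2 ≤ ‖y + (s : ℂ) * (x' - y)‖ ^ 2 :=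
          pow_le_pow_left₀ (norm_nonneg _) h5 2
        linarith
      have hq0 : 0 ≤ q := sq_nonneg _
      have hpv : 0 < -(ρ * v) := by nlinarith
      set s : ℝ := min 1 (-(ρ * v) / (q + 1)) with hs
      have hs0 : 0 < s := lt_min one_pos (div_pos hpv (by linarith))
      have hs2 : s ≤ -(ρ * v) / (q + 1) := min_le_right _ _
      have hs3 : s * (q + 1) ≤ -(ρ * v) := (le_div_iff₀ (by linarith)).1 hs2
      have := key s hs0.le (min_le_left _ _)
      nlinarith
    rw [← hρn]
    linarith
  -- interior points of smaller and larger norm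
  have hcon : IsPreconnected (interior K) := hK.convex.interior.isPreconnected
  have hA : ∃ x ∈ interior K, ‖x‖ < r := by
    have hyc : y ∈ closure (interior K) := hcl.symm ▸ hy
    have ho : IsOpen {x : ℂ | ‖x‖ < r} := isOpen_lt continuous_norm continuous_const
    obtain ⟨x, hx1, hx2⟩ := mem_closure_iff.1 hyc _ ho (by
      show ‖y‖ < r
      linarith)
    exact ⟨x, hx2, hx1⟩
  have hB : ∃ x ∈ interior K, r < ‖x‖ := by
    have hyc : (R : ℂ) ∈ closure (interior K) := hcl.symm ▸ hK.touch
    have ho : IsOpen {x : ℂ | r < ‖x‖} := isOpen_lt continuous_const continuous_norm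
    obtain ⟨x, hx1, hx2⟩ := mem_closure_iff.1 hyc _ ho (by
      show r < ‖(R : ℂ)‖
      rw [Complex.norm_real, Real.norm_eq_abs, abs_of_pos hR]
      exact h2)
    exact ⟨x, hx2, hx1⟩
  obtain ⟨x, hx, hxr⟩ := hA
  obtain ⟨x', hx', hxr'⟩ := hB
  obtain ⟨z, hz, hzr⟩ := hcon.intermediate_value hx hx' continuous_norm.continuousOn
    ⟨hxr.le, hxr'.le⟩
  obtain ⟨r', a, hr', -, ha, hza⟩ := hK.polar hp (interior_subset hz)
  have hzr' : ‖z‖ = r := hzr
  have : r' = r := by
    rw [← hzr', hza, norm_mul, norm_e, mul_one, Complex.norm_real, Real.norm_eq_abs,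
      abs_of_pos hr']
  refine ⟨a, ?_, ha⟩
  rw [← this, ← hza]
  exact hz

/-- The points of norm at most `R - W` have polar angles at most `b`. -/
theorem low_angle (hp : Par R D W) {b : ℝ} (hb0 : 0 ≤ b) (hbπ : b ≤ Real.pi)
    (hb : 2 * (R - W) * R * Real.cos b ≤ (R - W) ^ 2 + R ^ 2 - D ^ 2) {K : Set ℂ}
    (hK : Body R D W K) {r a : ℝ} (hr : 0 < r) (hr2 : r ≤ R - W) (ha : |a| ≤ Real.pi)
    (h : (r : ℂ) * e a ∈ K) : |a| ≤ b := by
  apply abs_le_of_cos_ge hb0 hbπ ha
  have h1 := hK.cos_ge hp.D_pos.le h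
  have hR := hp.R_pos
  have hs := hp.s_sq
  have hs0 := hp.s_pos
  have hcap := hp.cap
  set s := Real.sqrt (R ^ 2 - D ^ 2)
  set r0 := R - W with hr0
  have hr0p : 0 < r0 := lt_of_lt_of_le hr hr2
  -- `f r ≥ (r / r0) f r0`
  have h2 : 0 ≤ (r0 - r) * (s ^ 2 - r * r0) := by
    apply mul_nonneg (by linarith)
    nlinarith
  have h3 : 2 * r * R * Real.cos b ≤ r ^ 2 + R ^ 2 - D ^ 2 := by
    have h4 : r0 * (2 * r * R * Real.cos b) ≤ r0 * (r ^ 2 + R ^ 2 - D ^ 2) := by
      have h5 : r * (2 * r0 * R * Real.cos b) ≤ r * (r0 ^ 2 + R ^ 2 - D ^ 2) :=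
        mul_le_mul_of_nonneg_left hb hr.le
      nlinarith
    exact le_of_mul_le_mul_left h4 hr0p
  have h6 : 2 * r * R * Real.cos b ≤ 2 * r * R * Real.cos a := by linarith
  exact le_of_mul_le_mul_left h6 (by positivity)

lemma mem_interior_rot {K : Set ℂ} {w : ℝ} {z : ℂ} (h : z ∈ interior (rot w K)) :
    e (-w) * z ∈ interior K := by
  have hpre : rot w K = (fun z => e (-w) * z) ⁻¹' K := by
    ext x
    constructor
    · rintro ⟨y, hy, rfl⟩
      show e (-w) * (e w * y) ∈ K
      rw [← mul_assoc, e_mul, neg_add_cancel, e_zero, one_mul]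
      exact hy
    · intro hx
      refine ⟨e (-w) * x, hx, ?_⟩
      show e w * (e (-w) * x) = x
      rw [← mul_assoc, e_mul, add_neg_cancel, e_zero, one_mul]
  rw [hpre] at h
  have h2 : interior ((fun z => e (-w) * z) ⁻¹' K) ⊆ (fun z => e (-w) * z) ⁻¹' interior K := by
    have hh : IsOpenMap (fun z : ℂ => e (-w) * z) := by
      have : e (-w) ≠ 0 := by
        intro h0
        have := norm_e (-w)
        rw [h0, norm_zero] at this
        linarith
      exact (Homeomorph.mulLeft₀ (e (-w)) this).isOpenMap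
    exact hh.interior_preimage_subset_preimage_interior
  exact h2 h

/-- Perturbation of the angle of an interior point. -/
lemma exists_pert {K : Set ℂ} {r a : ℝ} (h : (r : ℂ) * e a ∈ interior K) :
    ∃ ε > 0, ∀ δ : ℝ, |δ| ≤ ε → (r : ℂ) * e (a + δ) ∈ interior K := by
  have hc : Continuous fun δ : ℝ => (r : ℂ) * e (a + δ) :=
    continuous_const.mul (continuous_e.comp (continuous_const.add continuous_id))
  have ho : IsOpen ((fun δ : ℝ => (r : ℂ) * e (a + δ)) ⁻¹' interior K) :=
    isOpen_interior.preimage hc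
  have h0 : (0 : ℝ) ∈ (fun δ : ℝ => (r : ℂ) * e (a + δ)) ⁻¹' interior K := by
    show (r : ℂ) * e (a + 0) ∈ interior K
    rwa [add_zero]
  obtain ⟨ε, hε, hball⟩ := Metric.isOpen_iff.1 ho 0 h0
  refine ⟨ε / 2, by linarith, fun δ hδ => hball ?_⟩
  rw [Metric.mem_ball, Real.dist_eq, sub_zero]
  linarith

/-! ### The ring -/

section Ring

variable {n : ℕ} [NeZero n]

/-- Periodic extension of a family indexed by `Fin n`. -/
def ext {α : Type*} (f : Fin n → α) (m : ℕ) : α := f ⟨m % n, Nat.mod_lt _ (NeZero.pos n)⟩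

lemma fin_succ (m : ℕ) : (⟨m % n, Nat.mod_lt _ (NeZero.pos n)⟩ : Fin n) + 1 =
    ⟨(m + 1) % n, Nat.mod_lt _ (NeZero.pos n)⟩ := by
  apply Fin.ext
  rw [Fin.val_add]
  show (m % n + ((1 : Fin n) : ℕ)) % n = (m + 1) % n
  rw [Fin.val_one', Nat.add_mod, Nat.mod_mod, Nat.mod_mod, ← Nat.add_mod]

lemma ext_add_n {α : Type*} (f : Fin n → α) (m : ℕ) : ext f (m + n) = ext f m := by
  unfold ext
  congr 1
  apply Fin.ext
  show (m + n) % n = m % n
  rw [Nat.add_mod_right]

lemma ext_of_lt {α : Type*} (f : Fin n → α) (i : Fin n) : ext f i = f i := by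
  unfold ext
  congr 1
  apply Fin.ext
  exact Nat.mod_eq_of_lt i.2

/-- The angle of the `m`-th body. -/
noncomputable def ang (ω : Fin n → ℝ) (m : ℕ) : ℝ := ∑ j ∈ Finset.range m, ext ω j

lemma ang_add_n (ω : Fin n → ℝ) (m : ℕ) : ang ω (m + n) = ang ω m + ∑ i, ω i := by
  have h0 : ang ω n = ∑ i, ω i := by
    unfold ang
    rw [← Fin.sum_univ_eq_sum_range]
    exact Finset.sum_congr rfl fun i _ => ext_of_lt ω i
  induction m with
  | zero => rw [zero_add, h0]; unfold ang; simp
  | succ m ih =>
    have h1 : ang ω (m + 1 + n) = ang ω (m + n) + ext ω (m + n) := by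
      rw [show m + 1 + n = m + n + 1 by ring]
      exact Finset.sum_range_succ _ _
    have h2 : ang ω (m + 1) = ang ω m + ext ω m := Finset.sum_range_succ _ _
    rw [h1, h2, ih, ext_add_n]
    ring

/-- **The ring.** -/
theorem ring (hp : Par R D W) {b0 : ℝ} (hb0 : 0 ≤ b0) (hbπ : b0 ≤ Real.pi)
    (hb : 2 * (R - W) * R * Real.cos b0 ≤ (R - W) ^ 2 + R ^ 2 - D ^ 2)
    (K : Fin n → Set ℂ) (hK : ∀ i, Body R D W (K i)) (hi : ∀ i, (interior (K i)).Nonempty)
    (ω : Fin n → ℝ) (hψ : ∀ i, psi (K i) (K (i + 1)) ≤ ω i) (hω0 : ∀ i, 0 ≤ ω i)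
    (hsum : ∑ i, ω i = 2 * Real.pi) (hpair : ∀ i, 2 * b0 ≤ ω i + ω (i + 1)) :
    ∀ i j : Fin n, i ≠ j → Disjoint (interior (rot (ang ω i) (K i)))
      (interior (rot (ang ω j) (K j))) := by
  have hR := hp.R_pos
  have hKe : ∀ m, Body R D W (ext K m) := fun m => hK _
  have hie : ∀ m, (interior (ext K m)).Nonempty := fun m => hi _
  have hψe : ∀ m, psi (ext K m) (ext K (m + 1)) ≤ ext ω m := by
    intro m
    have h := hψ ⟨m % n, Nat.mod_lt _ (NeZero.pos n)⟩
    rw [fin_succ] at h
    exact h
  have hω0e : ∀ m, 0 ≤ ext ω m := fun m => hω0 _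
  have hpaire : ∀ m, 2 * b0 ≤ ext ω m + ext ω (m + 1) := by
    intro m
    have h := hpair ⟨m % n, Nat.mod_lt _ (NeZero.pos n)⟩
    rw [fin_succ] at h
    exact h
  have hang : ∀ m, ang ω (m + 1) = ang ω m + ext ω m := fun m => Finset.sum_range_succ _ _
  have hmono : ∀ m d, ang ω m ≤ ang ω (m + d) := by
    intro m d
    induction d with
    | zero => exact le_rfl
    | succ d ih =>
      have := hang (m + d)
      rw [← add_assoc, this]
      linarith [hω0e (m + d)]
  -- the order of the angles
  have order : ∀ (r : ℝ), 0 < r → r < R → ∀ (i d : ℕ) (a b : ℝ), |a| ≤ kap R D → |b| ≤ kap R D →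
      (r : ℂ) * e a ∈ interior (ext K i) → (r : ℂ) * e b ∈ interior (ext K (i + (d + 1))) →
      ang ω i + a ≤ ang ω (i + (d + 1)) + b := by
    intro r hr hrR i d a b ha hb' h1 h2
    rcases le_or_gt r (R - W) with hrW | hrW
    · rcases Nat.eq_zero_or_pos d with rfl | hd
      · have h3 := pair_le hp (hKe i) (hKe (i + 1)) (hψe i) ha hb' (interior_subset h1)
          (interior_subset h2)
        rw [zero_add, hang]
        linarith
      · have hπ := Real.pi_pos
        have hκ := hp.kap_lt
        have h3 := low_angle hp hb0 hbπ hb (hKe i) hr hrW (by linarith) (interior_subset h1)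
        have h4 := low_angle hp hb0 hbπ hb (hKe _) hr hrW (by linarith) (interior_subset h2)
        have h5 : ang ω i + (ext ω i + ext ω (i + 1)) ≤ ang ω (i + (d + 1)) := by
          obtain ⟨d', rfl⟩ := Nat.exists_eq_add_of_le hd
          have h6 := hmono (i + 2) d'
          have h7 := hang (i + 1)
          have h8 := hang i
          rw [show i + (0 + 1 + d' + 1) = i + 2 + d' by ring]
          linarith
        have h6 := hpaire i
        have h7 := (abs_le.1 h3).2
        have h8 := (abs_le.1 h4).1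
        linarith
    · induction d generalizing b with
      | zero =>
        have h3 := pair_le hp (hKe i) (hKe (i + 1)) (hψe i) ha hb' (interior_subset h1)
          (interior_subset h2)
        rw [zero_add, hang]
        linarith
      | succ d ih =>
        obtain ⟨c, hc, hcκ⟩ := reach hp (hKe (i + (d + 1))) (hie _) hrW hrR
        have h3 := ih c hcκ hc
        have h4 := pair_le hp (hKe (i + (d + 1))) (hKe (i + (d + 1) + 1)) (hψe _) hcκ hb'
          (interior_subset hc) (interior_subset h2)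
        have h5 := hang (i + (d + 1))
        rw [show i + (d + 1 + 1) = i + (d + 1) + 1 by ring, h5]
        linarith
  -- the statement for `i < j`
  have main : ∀ i j : Fin n, i < j → Disjoint (interior (rot (ang ω i) (K i)))
      (interior (rot (ang ω j) (K j))) := by
    intro i j hij
    rw [Set.disjoint_left]
    intro z hz1 hz2
    have hz1' := mem_interior_rot hz1
    have hz2' := mem_interior_rot hz2
    obtain ⟨r, a, hr, hrR, ha, hza⟩ := (hK i).polar hp (interior_subset hz1')
    obtain ⟨r', b, hr', -, hb', hzb⟩ := (hK j).polar hp (interior_subset hz2')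
    have hzi : z = (r : ℂ) * e (ang ω i + a) := by
      have h3 : e (ang ω i) * (e (-ang ω i) * z) = e (ang ω i) * ((r : ℂ) * e a) := by rw [hza]
      rw [← mul_assoc, e_mul, add_neg_cancel, e_zero, one_mul] at h3
      rw [h3, mul_left_comm, e_mul]
    have hzj : z = (r' : ℂ) * e (ang ω j + b) := by
      have h3 : e (ang ω j) * (e (-ang ω j) * z) = e (ang ω j) * ((r' : ℂ) * e b) := by rw [hzb]
      rw [← mul_assoc, e_mul, add_neg_cancel, e_zero, one_mul] at h3
      rw [h3, mul_left_comm, e_mul]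
    have hrr : r' = r := by
      have h3 : ‖z‖ = r := by
        rw [hzi, norm_mul, norm_e, mul_one, Complex.norm_real, Real.norm_eq_abs, abs_of_pos hr]
      have h4 : ‖z‖ = r' := by
        rw [hzj, norm_mul, norm_e, mul_one, Complex.norm_real, Real.norm_eq_abs, abs_of_pos hr']
      rw [← h3, ← h4]
    subst hrr
    rw [hza] at hz1'
    rw [hzb] at hz2'
    -- `r < R`
    have hrR' : r' < R := by
      rcases lt_or_eq_of_le hrR with h | h
      · exact h
      · exfalso
        have h1 : interior (K i) ⊆ ball 0 R := by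
          have := interior_mono (hK i).sub
          rwa [interior_closedBall _ hR.ne'] at this
        have h2 := h1 hz1'
        rw [mem_ball, dist_zero_right, norm_mul, norm_e, mul_one, Complex.norm_real,
          Real.norm_eq_abs, abs_of_pos hr] at h2
        linarith
    -- the angles are congruent
    have hcong : ∃ k : ℤ, ang ω i + a - (ang ω j + b) = k * (2 * Real.pi) := by
      have h3 : e (ang ω i + a) = e (ang ω j + b) := by
        have h4 : (r' : ℂ) * e (ang ω i + a) = (r' : ℂ) * e (ang ω j + b) := by rw [← hzi, ← hzj]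
        exact mul_left_cancel₀ (by exact_mod_cast hr.ne') h4
      have h5 : Real.cos (ang ω i + a - (ang ω j + b)) = 1 := by
        have h6 := congrArg Complex.re h3
        have h7 := congrArg Complex.im h3
        rw [e_re, e_re] at h6
        rw [e_im, e_im] at h7
        rw [Real.cos_sub, h6, h7]
        have := Real.sin_sq_add_cos_sq (ang ω j + b)
        linarith [sq_nonneg (Real.sin (ang ω j + b))]
      obtain ⟨k, hk⟩ := (Real.cos_eq_one_iff _).1 h5
      exact ⟨k, hk.symm⟩
    obtain ⟨k, hk⟩ := hcong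
    obtain ⟨ε, hε, hpert⟩ := exists_pert hz1'
    have hκ := hp.kap_lt
    have hκ0 := hp.kap_pos
    have hπ := Real.pi_pos
    -- a small perturbation
    set δ : ℝ := min ε 1 with hδ
    have hδ0 : 0 < δ := lt_min hε one_pos
    have hδ1 : δ ≤ 1 := min_le_right _ _
    have hπ3 := Real.pi_gt_three
    have ha' := abs_le.1 ha
    have hp1 := hpert δ (by rw [abs_of_pos hδ0]; exact min_le_left _ _)
    have hp2 := hpert (-δ) (by rw [abs_neg, abs_of_pos hδ0]; exact min_le_left _ _)
    have hbd : ∀ δ' : ℝ, |δ'| ≤ δ → (r' : ℂ) * e (a + δ') ∈ interior (K i) →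
        |a + δ'| ≤ kap R D := by
      intro δ' hδ' hmem
      apply abs_le_of_cos_ge hκ0.le (by linarith) _ ((hK i).cos_ge_kap hp hr
        (interior_subset hmem))
      have := abs_le.1 hδ'
      rw [abs_le]
      constructor <;> linarith
    have hb1 := hbd δ (by rw [abs_of_pos hδ0]) hp1
    have hb2 := hbd (-δ) (by rw [abs_neg, abs_of_pos hδ0]) hp2
    have hKi : ext K (i : ℕ) = K i := ext_of_lt K i
    have hKj : ext K (j : ℕ) = K j := ext_of_lt K j
    have hij' : (i : ℕ) < (j : ℕ) := hij
    obtain ⟨d, hd⟩ := Nat.exists_eq_add_of_lt hij'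
    -- first comparison
    have o1 : ang ω i + (a + δ) ≤ ang ω j + b := by
      have := order r' hr hrR' i d (a + δ) b hb1 hb' (by rw [hKi]; exact hp1) (by
        rw [← add_assoc, ← hd, hKj]; exact hz2')
      rwa [← add_assoc (i : ℕ) d 1, ← hd] at this
    -- second comparison
    have hjn := j.2
    obtain ⟨d', hd'⟩ := Nat.exists_eq_add_of_lt (show (j : ℕ) < (i : ℕ) + n by omega)
    have o2 : ang ω j + b ≤ ang ω i + 2 * Real.pi + (a + -δ) := by
      have h3 : ext K ((j : ℕ) + (d' + 1)) = K i := by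
        rw [← add_assoc, ← hd', ext_add_n, hKi]
      have := order r' hr hrR' j d' b (a + -δ) hb' hb2 (by rw [hKj]; exact hz2') (by
        rw [h3]; exact hp2)
      rw [← add_assoc (j : ℕ) d' 1, ← hd', ang_add_n, hsum] at this
      exact this
    -- contradiction
    have hk1 : (k : ℝ) * (2 * Real.pi) < 0 := by linarith
    have hk2 : (-1 : ℝ) * (2 * Real.pi) < (k : ℝ) * (2 * Real.pi) := by linarith
    have hk3 : (k : ℝ) < 0 := by
      by_contra hcon
      push Not at hcon
      nlinarith
    have hk4 : (-1 : ℝ) < k := lt_of_mul_lt_mul_right hk2 (by linarith)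
    have hk5 : k < 0 := by exact_mod_cast hk3
    have hk6 : (-1 : ℤ) < k := by exact_mod_cast hk4
    omega
  intro i j hij
  rcases lt_or_gt_of_ne hij with h | h
  · exact main i j h
  · exact (main j i h).symm

end Ring

end Pool.Agent.Helper72.PR
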