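import Pool.Agent.Helper79.MI.Defs

/-!
# Bodies in a disk, touching its boundary: the up-set property

`K` lies in the disk of centre `0` and radius `R`, contains the point `R`, has diameter at most
`D` and widths at least `W`, where `R - W < √(R² - D²)`. If `K` and the rotated body `rot w1 L`
are disjoint, `0 < w1`, then so are `K` and `rot w2 L` for `w1 ≤ w2 < π`.
-/

namespace Pool.Agent.Helper72.PR

open Pool.Agent.Helper16.Disk7 Pool.Agent.Helper57.CW Pool.Agent.Helper79.MI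
open MeasureTheory Metric Complex Set
open scoped ENNReal Pointwise

/-- A convex body in the disk of centre `0` and radius `R`, touching its boundary at the point
`R`, of diameter at most `D` and of widths at least `W`. -/
structure Body (R D W : ℝ) (K : Set ℂ) : Prop where
  isCompact : IsCompact K
  convex : Convex ℝ K
  sub : K ⊆ closedBall 0 R
  touch : (R : ℂ) ∈ K
  diam : ∀ x ∈ K, ∀ y ∈ K, ‖x - y‖ ≤ D
  width : ∀ θ : ℝ, ∃ x ∈ K, ∃ y ∈ K, W ≤ ip x (e θ) - ip y (e θ)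

/-- The parameters: `D < R` and `R - W < √(R² - D²)`. -/
structure Par (R D W : ℝ) : Prop where
  D_pos : 0 < D
  D_lt : D < R
  W_pos : 0 < W
  W_le : W ≤ R
  cap : R - W < Real.sqrt (R ^ 2 - D ^ 2)

/-- Half of the largest angle under which a body is seen from the centre. -/
noncomputable def kap (R D : ℝ) : ℝ := Real.arccos (Real.sqrt (R ^ 2 - D ^ 2) / R)

variable {R D W : ℝ}

lemma Par.R_pos (h : Par R D W) : 0 < R := h.D_pos.trans h.D_lt

lemma Par.sq_pos (h : Par R D W) : 0 < R ^ 2 - D ^ 2 := by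
  have h1 := h.D_pos
  have h2 := h.D_lt
  nlinarith

lemma Par.s_pos (h : Par R D W) : 0 < Real.sqrt (R ^ 2 - D ^ 2) := Real.sqrt_pos.2 h.sq_pos

lemma Par.s_sq (h : Par R D W) : Real.sqrt (R ^ 2 - D ^ 2) ^ 2 = R ^ 2 - D ^ 2 :=
  Real.sq_sqrt h.sq_pos.le

lemma Par.s_lt (h : Par R D W) : Real.sqrt (R ^ 2 - D ^ 2) < R := by
  rw [Real.sqrt_lt' h.R_pos]
  have h1 := h.D_pos
  nlinarith

lemma Par.cos_kap (h : Par R D W) : Real.cos (kap R D) = Real.sqrt (R ^ 2 - D ^ 2) / R := by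
  have hR := h.R_pos
  rw [kap, Real.cos_arccos]
  · have : 0 ≤ Real.sqrt (R ^ 2 - D ^ 2) / R := div_nonneg h.s_pos.le hR.le
    linarith
  · rw [div_le_one hR]
    exact h.s_lt.le

lemma Par.kap_pos (h : Par R D W) : 0 < kap R D := by
  rw [kap, Real.arccos_pos, div_lt_one h.R_pos]
  exact h.s_lt

lemma Par.kap_lt (h : Par R D W) : kap R D < Real.pi / 2 := by
  rw [kap, Real.arccos_lt_pi_div_two]
  exact div_pos h.s_pos h.R_pos

lemma sq_norm_sub_R (r R a : ℝ) :
    ‖(r : ℂ) * e a - (R : ℂ)‖ ^ 2 = r ^ 2 + R ^ 2 - 2 * r * R * Real.cos a := by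
  rw [← Complex.normSq_eq_norm_sq, Complex.normSq_apply]
  simp only [Complex.sub_re, Complex.sub_im, Complex.mul_re, Complex.mul_im, Complex.ofReal_re,
    Complex.ofReal_im, e_re, e_im]
  have h := Real.sin_sq_add_cos_sq a
  linear_combination r ^ 2 * h

/-- The cosine of the polar angle of a point of the body. -/
lemma Body.cos_ge {K : Set ℂ} (hK : Body R D W K) (hD : 0 ≤ D) {r a : ℝ}
    (h : (r : ℂ) * e a ∈ K) : r ^ 2 + R ^ 2 - D ^ 2 ≤ 2 * r * R * Real.cos a := by
  have h1 := hK.diam _ h _ hK.touch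
  have h2 := sq_norm_sub_R r R a
  have h3 : ‖(r : ℂ) * e a - (R : ℂ)‖ ^ 2 ≤ D ^ 2 := by
    have := norm_nonneg ((r : ℂ) * e a - (R : ℂ))
    nlinarith
  linarith

lemma Body.cos_ge_kap (hp : Par R D W) {K : Set ℂ} (hK : Body R D W K) {r a : ℝ} (hr : 0 < r)
    (h : (r : ℂ) * e a ∈ K) : Real.cos (kap R D) ≤ Real.cos a := by
  have h1 := hK.cos_ge hp.D_pos.le h
  have h2 := hp.s_sq
  have h3 := hp.s_pos
  have hR := hp.R_pos
  rw [hp.cos_kap, div_le_iff₀ hR]
  set s := Real.sqrt (R ^ 2 - D ^ 2)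
  have h4 : 2 * r * s ≤ 2 * r * (R * Real.cos a) := by nlinarith [sq_nonneg (r - s)]
  have h5 : s ≤ R * Real.cos a := le_of_mul_le_mul_left h4 (by linarith)
  linarith

lemma abs_le_of_cos_ge {κ a : ℝ} (h0 : 0 ≤ κ) (h1 : κ ≤ Real.pi) (ha : |a| ≤ Real.pi)
    (h : Real.cos κ ≤ Real.cos a) : |a| ≤ κ := by
  by_contra hc
  push Not at hc
  have := Real.strictAntiOn_cos ⟨h0, h1⟩ ⟨abs_nonneg a, ha⟩ hc
  rw [Real.cos_abs] at this
  linarith

/-- A slightly more general version: the angle is only known to be less than `3π/2`. -/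
lemma abs_le_of_cos_ge' {κ a : ℝ} (h0 : 0 ≤ κ) (h1 : κ < Real.pi / 2)
    (ha : |a| < 3 * Real.pi / 2) (h : Real.cos κ ≤ Real.cos a) : |a| ≤ κ := by
  have hc : 0 < Real.cos κ := Real.cos_pos_of_mem_Ioo ⟨by linarith, h1⟩
  have hpi := Real.pi_pos
  apply abs_le_of_cos_ge h0 (by linarith) _ h
  by_contra hlt
  push Not at hlt
  have h2 : Real.cos |a| ≤ 0 :=
    Real.cos_nonpos_of_pi_div_two_le_of_le (by linarith) (by linarith)
  rw [Real.cos_abs] at h2
  linarith

lemma zero_notMem (hp : Par R D W) {K : Set ℂ} (hK : Body R D W K) : (0 : ℂ) ∉ K := by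
  intro h
  have h1 := hK.diam _ hK.touch _ h
  rw [sub_zero, Complex.norm_real, Real.norm_eq_abs, abs_of_pos hp.R_pos] at h1
  linarith [hp.D_lt]

lemma polar (z : ℂ) (hz : z ≠ 0) : ∃ r a : ℝ, 0 < r ∧ |a| ≤ Real.pi ∧ z = (r : ℂ) * e a ∧
    r = ‖z‖ := by
  refine ⟨‖z‖, Complex.arg z, norm_pos_iff.2 hz, Complex.abs_arg_le_pi z, ?_, rfl⟩
  rw [e, Complex.norm_mul_exp_arg_mul_I]

/-- Polar coordinates of the points of a body. -/
lemma Body.polar (hp : Par R D W) {K : Set ℂ} (hK : Body R D W K) {z : ℂ} (hz : z ∈ K) :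
    ∃ r a : ℝ, 0 < r ∧ r ≤ R ∧ |a| ≤ kap R D ∧ z = (r : ℂ) * e a := by
  have h0 : z ≠ 0 := fun h => zero_notMem hp hK (h ▸ hz)
  obtain ⟨r, a, hr, ha, hz', hn⟩ := PR.polar z h0
  refine ⟨r, a, hr, ?_, ?_, hz'⟩
  · have := hK.sub hz
    rw [mem_closedBall, dist_zero_right] at this
    linarith
  · rw [hz'] at hz
    exact abs_le_of_cos_ge hp.kap_pos.le (by linarith [hp.kap_lt, Real.pi_pos]) ha
      (hK.cos_ge_kap hp hr hz)

/-- Strict separation by a line, with control of the choice of the angle. -/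
lemma exists_sep {K L : Set ℂ} (hK : IsCompact K) (hKc : Convex ℝ K) (hL : IsCompact L)
    (hLc : Convex ℝ L) (hKn : K.Nonempty) (hLn : L.Nonempty) (h : Disjoint K L) (β : ℝ) :
    ∃ ν p : ℝ, |ν - β| ≤ Real.pi ∧ (∀ x ∈ K, ip x (e ν) < p) ∧ ∀ y ∈ L, p < ip y (e ν) := by
  obtain ⟨f, u, v, h1, h2, h3⟩ := geometric_hahn_banach_compact_closed hKc hK hLc hL.isClosed h
  set c : ℂ := ⟨f 1, f Complex.I⟩ with hc
  have hf : ∀ z : ℂ, f z = ip z c := by
    intro z
    have : z = z.re • (1 : ℂ) + z.im • Complex.I := by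
      apply Complex.ext <;> simp
    conv_lhs => rw [this]
    rw [map_add, map_smul, map_smul, ip_eq, hc]
    simp only [smul_eq_mul]
  have hc0 : c ≠ 0 := by
    intro h0
    obtain ⟨x, hx⟩ := hKn
    obtain ⟨y, hy⟩ := hLn
    have h4 := h1 x hx
    have h5 := h3 y hy
    rw [hf, h0] at h4 h5
    simp only [ip_eq, Complex.zero_re, Complex.zero_im, mul_zero, add_zero] at h4 h5
    linarith
  obtain ⟨r, a, hr, ha, hc', -⟩ := polar (c * e (-β)) (mul_ne_zero hc0 (by
    intro h0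
    have := norm_e (-β)
    rw [h0, norm_zero] at this
    linarith))
  have hc2 : c = (r : ℂ) * e (a + β) := by
    have : c = c * e (-β) * e β := by
      rw [mul_assoc, e_mul, neg_add_cancel]
      have : e 0 = 1 := by
        apply Complex.ext
        · rw [e_re, Real.cos_zero, Complex.one_re]
        · rw [e_im, Real.sin_zero, Complex.one_im]
      rw [this, mul_one]
    rw [this, hc', mul_assoc, e_mul]
  have hf2 : ∀ z : ℂ, f z = r * ip z (e (a + β)) := by
    intro z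
    rw [hf, hc2]
    simp only [ip_eq, Complex.mul_re, Complex.mul_im, Complex.ofReal_re, Complex.ofReal_im]
    ring
  refine ⟨a + β, u / r, by rw [add_sub_cancel_right]; exact ha, fun x hx => ?_, fun y hy => ?_⟩
  · have := h1 x hx
    rw [hf2] at this
    rwa [lt_div_iff₀ hr, mul_comm]
  · have := h3 y hy
    rw [hf2] at this
    rw [div_lt_iff₀ hr, mul_comm]
    linarith

lemma isCompact_rot {L : Set ℂ} (h : IsCompact L) (w : ℝ) : IsCompact (rot w L) :=
  h.image (by fun_prop)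

lemma convex_rot {L : Set ℂ} (h : Convex ℝ L) (w : ℝ) : Convex ℝ (rot w L) := by
  have : rot w L = (LinearMap.mulLeft ℝ (e w)) '' L := rfl
  rw [this]
  exact h.linear_image _

lemma ip_real_e (R ν : ℝ) : ip (R : ℂ) (e ν) = R * Real.cos ν := by
  rw [ip_e, Complex.ofReal_re, Complex.ofReal_im]; ring

lemma ip_polar (r a ν : ℝ) : ip ((r : ℂ) * e a) (e ν) = r * Real.cos (a - ν) := by
  rw [ip_smul, ip_e_e]

lemma ip_le_R {K : Set ℂ} (hK : K ⊆ closedBall 0 R) {z : ℂ} (hz : z ∈ K) (ν : ℝ) :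
    ip z (e ν) ≤ R := by
  have h1 := hK hz
  rw [mem_closedBall, dist_zero_right] at h1
  exact (ip_le_norm z (e ν) (norm_e ν)).trans h1

lemma rot_sub {L : Set ℂ} (hL : L ⊆ closedBall 0 R) (w : ℝ) : rot w L ⊆ closedBall 0 R := by
  rintro _ ⟨z, hz, rfl⟩
  have h1 := hL hz
  rw [mem_closedBall, dist_zero_right] at h1 ⊢
  show ‖e w * z‖ ≤ R
  rwa [norm_mul, norm_e, one_mul]

lemma rot_width {L : Set ℂ} (hL : ∀ θ : ℝ, ∃ x ∈ L, ∃ y ∈ L, W ≤ ip x (e θ) - ip y (e θ))
    (w θ : ℝ) : ∃ x ∈ rot w L, ∃ y ∈ rot w L, W ≤ ip x (e θ) - ip y (e θ) := by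
  obtain ⟨x, hx, y, hy, h⟩ := hL (θ - w)
  refine ⟨e w * x, ⟨x, hx, rfl⟩, e w * y, ⟨y, hy, rfl⟩, ?_⟩
  have h1 := ip_rot x w (θ - w)
  have h2 := ip_rot y w (θ - w)
  rw [add_sub_cancel] at h1 h2
  rw [h1, h2]
  exact h

/-- A body of width at least `W` is not contained in a cap of the disk of height less than `W`. -/
lemma cap_false {K : Set ℂ} (hK : K ⊆ closedBall 0 R)
    (hw : ∀ θ : ℝ, ∃ x ∈ K, ∃ y ∈ K, W ≤ ip x (e θ) - ip y (e θ)) {ν q : ℝ} (hq : R - W ≤ q)
    (h : ∀ x ∈ K, q < ip x (e ν)) : False := by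
  obtain ⟨x, hx, y, hy, h1⟩ := hw ν
  have h2 := h y hy
  have h3 := ip_le_R hK hx ν
  linarith

/-- **Up-set property.** -/
theorem up_set (hp : Par R D W) {K L : Set ℂ} (hK : Body R D W K) (hL : Body R D W L)
    {w1 w2 : ℝ} (h0 : 0 < w1) (h12 : w1 ≤ w2) (h2 : w2 < Real.pi)
    (h : Disjoint K (rot w1 L)) : Disjoint K (rot w2 L) := by
  rw [Set.disjoint_left]
  intro x hxK hxL
  have hR := hp.R_pos
  have hpi := Real.pi_pos
  have hκ := hp.kap_pos
  have hκ2 := hp.kap_lt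
  obtain ⟨r, a, hr, -, ha, rfl⟩ := hK.polar hp hxK
  obtain ⟨y, hy, hxy⟩ := hxL
  have hxy' : e w2 * y = (r : ℂ) * e a := hxy
  have hy' : y = (r : ℂ) * e (a - w2) := by
    have h1 : e (-w2) * (e w2 * y) = e (-w2) * ((r : ℂ) * e a) := by rw [hxy']
    rw [← mul_assoc, e_mul, neg_add_cancel] at h1
    have h3 : e 0 = 1 := by
      apply Complex.ext
      · rw [e_re, Real.cos_zero, Complex.one_re]
      · rw [e_im, Real.sin_zero, Complex.one_im]
    rw [h3, one_mul] at h1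
    rw [h1, mul_left_comm, e_mul]
    congr 2
    ring
  subst hy'
  have ha' := abs_le.1 ha
  have hb : |a - w2| ≤ kap R D := by
    apply abs_le_of_cos_ge' hκ.le hκ2 _ (hL.cos_ge_kap hp hr hy)
    rw [abs_lt]
    constructor <;> linarith [ha'.1, ha'.2]
  have hb' := abs_le.1 hb
  obtain ⟨ν, p, hν, hKp, hLp⟩ := exists_sep hK.isCompact hK.convex (isCompact_rot hL.isCompact w1)
    (convex_rot hL.convex w1) ⟨_, hK.touch⟩ ⟨_, ⟨_, hL.touch, rfl⟩⟩ h (w1 / 2 + Real.pi / 2)
  have hν' := abs_le.1 hν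
  -- the touching points
  have e1 := hKp _ hK.touch
  have e2 := hLp _ ⟨_, hL.touch, rfl⟩
  have e2' : p < R * Real.cos (w1 - ν) := by
    have h3 : (fun z => e w1 * z) (R : ℂ) = (R : ℂ) * e w1 := mul_comm _ _
    rw [h3, ip_polar] at e2
    exact e2
  rw [ip_real_e] at e1
  -- the point `x`
  have e3 := hKp _ hxK
  have e4 := hLp _ ⟨_, hy, rfl⟩
  have e4' : p < r * Real.cos (a - w2 + w1 - ν) := by
    have h3 : (fun z => e w1 * z) ((r : ℂ) * e (a - w2)) = (r : ℂ) * e (a - w2 + w1) := by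
      show e w1 * ((r : ℂ) * e (a - w2)) = _
      rw [mul_left_comm, e_mul, add_comm]
    rw [h3, ip_polar] at e4
    exact e4
  rw [ip_polar] at e3
  -- first condition
  have c1 : 0 < Real.cos (w1 - ν) - Real.cos ν := by
    have : R * Real.cos ν < R * Real.cos (w1 - ν) := e1.trans e2'
    nlinarith
  have c1' : 0 < Real.cos (ν - (w1 / 2 + Real.pi / 2)) := by
    have h3 : Real.cos (w1 - ν) - Real.cos ν =
        2 * Real.sin (w1 / 2) * Real.cos (ν - (w1 / 2 + Real.pi / 2)) := by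
      have h4 : Real.cos (ν - (w1 / 2 + Real.pi / 2)) = Real.sin (ν - w1 / 2) := by
        rw [← Real.cos_pi_div_two_sub, ← Real.cos_neg]
        congr 1
        ring
      have h5 : w1 - ν = w1 / 2 - (ν - w1 / 2) := by ring
      have h6 : ν = w1 / 2 + (ν - w1 / 2) := by ring
      rw [h4, h5, Real.cos_sub]
      conv_lhs => rw [h6]
      rw [Real.cos_add]
      have h7 : w1 / 2 + (ν - w1 / 2) - w1 / 2 = ν - w1 / 2 := by ring
      rw [h7]
      ring
    rw [h3] at c1
    have h4 : 0 < Real.sin (w1 / 2) := Real.sin_pos_of_pos_of_lt_pi (by linarith) (by linarith)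
    by_contra hcon
    push Not at hcon
    nlinarith
  -- second condition
  have c2 : 0 < Real.cos (a - w2 + w1 - ν) - Real.cos (a - ν) := by
    have : r * Real.cos (a - ν) < r * Real.cos (a - w2 + w1 - ν) := e3.trans e4'
    nlinarith
  have c2' : 0 < Real.sin (a - (w2 - w1) / 2 - ν) := by
    have h3 : Real.cos (a - w2 + w1 - ν) - Real.cos (a - ν) =
        2 * Real.sin (a - (w2 - w1) / 2 - ν) * Real.sin ((w2 - w1) / 2) := by
      have h5 : a - w2 + w1 - ν = (a - (w2 - w1) / 2 - ν) - (w2 - w1) / 2 := by ring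
      have h6 : a - ν = (a - (w2 - w1) / 2 - ν) + (w2 - w1) / 2 := by ring
      rw [h5, Real.cos_sub]
      conv_lhs => rw [h6]
      rw [Real.cos_add]
      ring
    rw [h3] at c2
    have h4 : 0 ≤ Real.sin ((w2 - w1) / 2) :=
      Real.sin_nonneg_of_nonneg_of_le_pi (by linarith) (by linarith)
    by_contra hcon
    push Not at hcon
    nlinarith
  have hν1 : |ν - (w1 / 2 + Real.pi / 2)| < Real.pi / 2 := by
    by_contra hcon
    push Not at hcon
    have h3 : Real.cos |ν - (w1 / 2 + Real.pi / 2)| ≤ 0 :=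
      Real.cos_nonpos_of_pi_div_two_le_of_le hcon (by linarith)
    rw [Real.cos_abs] at h3
    linarith
  have hν2 := abs_lt.1 hν1
  have hsκ : R * Real.cos (kap R D) = Real.sqrt (R ^ 2 - D ^ 2) := by
    rw [hp.cos_kap, mul_div_cancel₀ _ hR.ne']
  have hcap := hp.cap
  rcases lt_or_ge 0 (a - (w2 - w1) / 2 - ν) with ht | ht
  · -- `L` lies in a cap
    have h3 : Real.cos (kap R D) ≤ Real.cos ν :=
      Real.cos_le_cos_of_nonneg_of_le_pi (by linarith) (by linarith) (by linarith [ha'.2])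
    have h4 : R * Real.cos (kap R D) ≤ R * Real.cos ν := by nlinarith
    exact cap_false (rot_sub hL.sub w1) (rot_width hL.width w1) (q := p) (by linarith) hLp
  · -- `K` lies in a cap
    have ht2 : a - (w2 - w1) / 2 - ν < -Real.pi := by
      by_contra hcon
      push Not at hcon
      have := Real.sin_nonpos_of_nonpos_of_neg_pi_le ht hcon
      linarith
    have h3 : Real.cos (kap R D) ≤ Real.cos (w1 - (ν - Real.pi)) :=
      Real.cos_le_cos_of_nonneg_of_le_pi (by linarith) (by linarith) (by linarith [hb'.1])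
    have h4 : R * Real.cos (kap R D) ≤ R * Real.cos (w1 - (ν - Real.pi)) := by nlinarith
    have h5 : Real.cos (w1 - (ν - Real.pi)) = - Real.cos (w1 - ν) := by
      rw [show w1 - (ν - Real.pi) = (w1 - ν) + Real.pi by ring, Real.cos_add_pi]
    rw [h5] at h4
    refine cap_false hK.sub hK.width (ν := ν + Real.pi) (q := -p) (by linarith) fun x hx => ?_
    have h6 := hKp x hx
    rw [e_add_pi, ip_neg_right]
    linarith

end Pool.Agent.Helper72.PR
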