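import Pool.Agent.Helper72.PR.Jung

/-!
# The widths of a body of perimeter `2π` and diameter at most `0.64 π`

If the width in the direction `θ` were less than `D cos φ`, `φ = 0.39`, then the widths in the
directions `θ ± t`, `0 ≤ t ≤ φ`, would be at most `D cos (φ - t)`, and the perimeter would be at
most `2 D (sin φ + π / 2 - φ) < 2π`.
-/

namespace Pool.Agent.Helper72.PR

open Pool.Agent.Helper16.Disk7 Pool.Agent.Helper57.CW Pool.Agent.Helper79.MI
open MeasureTheory Metric Complex Set
open scoped ENNReal Pointwise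

/-- The width function. -/
noncomputable def wd (K : Set ℂ) (θ : ℝ) : ℝ := supportFn K θ + supportFn K (θ + Real.pi)

variable {K : Set ℂ}

theorem wd_continuous (hc : IsCompact K) (hne : K.Nonempty) : Continuous (wd K) := by
  have := supp_continuous hc hne
  unfold wd
  fun_prop

theorem perimeter_eq_wd (hc : IsCompact K) (hne : K.Nonempty) (a : ℝ) :
    perimeter K = ∫ t in a..(a + Real.pi), wd K t := by
  have hcont := supp_continuous hc hne
  have hint : ∀ s t : ℝ, IntervalIntegrable (supportFn K) volume s t :=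
    fun s t => hcont.intervalIntegrable s t
  have h1 : perimeter K = ∫ t in a..(a + 2 * Real.pi), supportFn K t := by
    unfold perimeter
    have := (supportFn_periodic K).intervalIntegral_add_eq 0 a
    rw [zero_add] at this
    exact this
  have h2 : ∫ t in a..(a + 2 * Real.pi), supportFn K t =
      (∫ t in a..(a + Real.pi), supportFn K t) +
        ∫ t in (a + Real.pi)..(a + 2 * Real.pi), supportFn K t :=
    (intervalIntegral.integral_add_adjacent_intervals (hint _ _) (hint _ _)).symm
  have h3 : ∫ t in a..(a + Real.pi), supportFn K (t + Real.pi) =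
      ∫ t in (a + Real.pi)..(a + 2 * Real.pi), supportFn K t := by
    rw [intervalIntegral.integral_comp_add_right]
    congr 1
    ring
  rw [h1, h2, ← h3]
  unfold wd
  rw [intervalIntegral.integral_add (hint _ _)]
  exact (hcont.comp (continuous_id.add continuous_const)).intervalIntegrable _ _

theorem wd_sublin (hc : IsCompact K) (hne : K.Nonempty) {θ1 θ2 θ3 : ℝ}
    (h12 : θ1 ≤ θ2) (h23 : θ2 ≤ θ3) (h13 : θ3 - θ1 ≤ Real.pi) :
    wd K θ2 * Real.sin (θ3 - θ1) ≤
      wd K θ1 * Real.sin (θ3 - θ2) + wd K θ3 * Real.sin (θ2 - θ1) := by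
  have h1 := supp_sublin hc hne h12 h23 h13
  have h2 := supp_sublin hc hne (θ1 := θ1 + Real.pi) (θ2 := θ2 + Real.pi) (θ3 := θ3 + Real.pi)
    (by linarith) (by linarith) (by linarith)
  rw [add_sub_add_right_eq_sub, add_sub_add_right_eq_sub, add_sub_add_right_eq_sub] at h2
  unfold wd
  linarith

theorem wd_ge_of_perimeter (hc : IsCompact K) (hne : K.Nonempty) {D φ : ℝ}
    (hd : ∀ x ∈ K, ∀ y ∈ K, ‖x - y‖ ≤ D) (hφ0 : 0 < φ) (hφ : φ < Real.pi / 2)
    (hp : 2 * D * (Real.sin φ + Real.pi / 2 - φ) < perimeter K) (θ : ℝ) :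
    D * Real.cos φ ≤ wd K θ := by
  by_contra hlt
  push Not at hlt
  have hπ := Real.pi_pos
  have hcont := wd_continuous hc hne
  have hint : ∀ s t : ℝ, IntervalIntegrable (wd K) volume s t :=
    fun s t => hcont.intervalIntegrable s t
  have hD : ∀ t, wd K t ≤ D := supp_width_le hc hne hd
  have hs : 0 < Real.sin φ := Real.sin_pos_of_pos_of_lt_pi hφ0 (by linarith)
  have hid : ∀ t : ℝ, Real.sin φ * Real.cos (φ - t) =
      Real.cos φ * Real.sin (φ - t) + Real.sin t := by
    intro t
    rw [Real.cos_sub, Real.sin_sub]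
    have := Real.sin_sq_add_cos_sq φ
    linear_combination Real.sin t * this
  have hplus : ∀ t, 0 ≤ t → t ≤ φ → wd K (θ + t) ≤ D * Real.cos (φ - t) := by
    intro t ht0 ht
    have h1 := wd_sublin hc hne (θ1 := θ) (θ2 := θ + t) (θ3 := θ + φ) (by linarith) (by linarith)
      (by linarith)
    have e1 : θ + φ - θ = φ := by ring
    have e2 : θ + φ - (θ + t) = φ - t := by ring
    have e3 : θ + t - θ = t := by ring
    rw [e1, e2, e3] at h1
    have h2 : 0 ≤ Real.sin (φ - t) := Real.sin_nonneg_of_nonneg_of_le_pi (by linarith) (by linarith)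
    have h3 : 0 ≤ Real.sin t := Real.sin_nonneg_of_nonneg_of_le_pi ht0 (by linarith)
    have h4 := hD (θ + φ)
    have h5 := hid t
    have h6 : wd K θ * Real.sin (φ - t) ≤ D * Real.cos φ * Real.sin (φ - t) :=
      mul_le_mul_of_nonneg_right hlt.le h2
    have h7 : wd K (θ + φ) * Real.sin t ≤ D * Real.sin t := mul_le_mul_of_nonneg_right h4 h3
    have h9 : D * Real.cos (φ - t) * Real.sin φ =
        D * Real.cos φ * Real.sin (φ - t) + D * Real.sin t := by linear_combination D * h5
    have h8 : wd K (θ + t) * Real.sin φ ≤ D * Real.cos (φ - t) * Real.sin φ := by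
      rw [h9]; linarith
    exact le_of_mul_le_mul_right h8 hs
  have hminus : ∀ t, 0 ≤ t → t ≤ φ → wd K (θ - t) ≤ D * Real.cos (φ - t) := by
    intro t ht0 ht
    have h1 := wd_sublin hc hne (θ1 := θ - φ) (θ2 := θ - t) (θ3 := θ) (by linarith) (by linarith)
      (by linarith)
    have e1 : θ - (θ - φ) = φ := by ring
    have e2 : θ - (θ - t) = t := by ring
    have e3 : θ - t - (θ - φ) = φ - t := by ring
    rw [e1, e2, e3] at h1
    have h2 : 0 ≤ Real.sin (φ - t) := Real.sin_nonneg_of_nonneg_of_le_pi (by linarith) (by linarith)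
    have h3 : 0 ≤ Real.sin t := Real.sin_nonneg_of_nonneg_of_le_pi ht0 (by linarith)
    have h4 := hD (θ - φ)
    have h5 := hid t
    have h6 : wd K θ * Real.sin (φ - t) ≤ D * Real.cos φ * Real.sin (φ - t) :=
      mul_le_mul_of_nonneg_right hlt.le h2
    have h7 : wd K (θ - φ) * Real.sin t ≤ D * Real.sin t := mul_le_mul_of_nonneg_right h4 h3
    have h9 : D * Real.cos (φ - t) * Real.sin φ =
        D * Real.cos φ * Real.sin (φ - t) + D * Real.sin t := by linear_combination D * h5
    have h8 : wd K (θ - t) * Real.sin φ ≤ D * Real.cos (φ - t) * Real.sin φ := by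
      rw [h9]; linarith
    exact le_of_mul_le_mul_right h8 hs
  -- the four integrals
  have i1 : ∫ t in (θ - Real.pi / 2)..(θ - φ), wd K t ≤ D * (Real.pi / 2 - φ) := by
    have h1 := intervalIntegral.integral_mono_on (μ := volume) (f := wd K) (g := fun _ => D)
      (a := θ - Real.pi / 2) (b := θ - φ) (by linarith) (hint _ _)
      (continuous_const.intervalIntegrable _ _) (fun t _ => hD t)
    rw [intervalIntegral.integral_const, smul_eq_mul] at h1
    linarith
  have i4 : ∫ t in (θ + φ)..(θ + Real.pi / 2), wd K t ≤ D * (Real.pi / 2 - φ) := by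
    have h1 := intervalIntegral.integral_mono_on (μ := volume) (f := wd K) (g := fun _ => D)
      (a := θ + φ) (b := θ + Real.pi / 2) (by linarith) (hint _ _)
      (continuous_const.intervalIntegrable _ _) (fun t _ => hD t)
    rw [intervalIntegral.integral_const, smul_eq_mul] at h1
    linarith
  have i2 : ∫ t in (θ - φ)..θ, wd K t ≤ D * Real.sin φ := by
    have hcg : Continuous fun t : ℝ => D * Real.cos (t + (φ - θ)) := by fun_prop
    have h1 := intervalIntegral.integral_mono_on (μ := volume) (f := wd K)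
      (g := fun t => D * Real.cos (t + (φ - θ)))
      (a := θ - φ) (b := θ) (by linarith) (hint _ _) (hcg.intervalIntegrable _ _)
      (fun t ht => by
        have h2 := hminus (θ - t) (by linarith [ht.2]) (by linarith [ht.1])
        rw [sub_sub_cancel] at h2
        have h3 : φ - (θ - t) = t + (φ - θ) := by ring
        rwa [h3] at h2)
    rw [intervalIntegral.integral_const_mul, intervalIntegral.integral_comp_add_right (fun t => Real.cos t),
      integral_cos] at h1
    have e1 : θ - φ + (φ - θ) = 0 := by ring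
    have e2 : θ + (φ - θ) = φ := by ring
    rw [e1, e2, Real.sin_zero, sub_zero] at h1
    exact h1
  have i3 : ∫ t in θ..(θ + φ), wd K t ≤ D * Real.sin φ := by
    have hcg : Continuous fun t : ℝ => D * Real.cos (φ + θ - t) := by fun_prop
    have h1 := intervalIntegral.integral_mono_on (μ := volume) (f := wd K)
      (g := fun t => D * Real.cos (φ + θ - t))
      (a := θ) (b := θ + φ) (by linarith) (hint _ _) (hcg.intervalIntegrable _ _)
      (fun t ht => by
        have h2 := hplus (t - θ) (by linarith [ht.1]) (by linarith [ht.2])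
        rw [add_sub_cancel] at h2
        have h3 : φ - (t - θ) = φ + θ - t := by ring
        rwa [h3] at h2)
    rw [intervalIntegral.integral_const_mul, intervalIntegral.integral_comp_sub_left (fun t => Real.cos t),
      integral_cos] at h1
    have e1 : φ + θ - (θ + φ) = 0 := by ring
    have e2 : φ + θ - θ = φ := by ring
    rw [e1, e2, Real.sin_zero, sub_zero] at h1
    exact h1
  have h5 := perimeter_eq_wd hc hne (θ - Real.pi / 2)
  have e5 : θ - Real.pi / 2 + Real.pi = θ + Real.pi / 2 := by ring
  rw [e5] at h5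
  have h6 := intervalIntegral.integral_add_adjacent_intervals (hint (θ - Real.pi / 2) (θ - φ))
    (hint (θ - φ) θ)
  have h7 := intervalIntegral.integral_add_adjacent_intervals (hint (θ - Real.pi / 2) θ)
    (hint θ (θ + φ))
  have h8 := intervalIntegral.integral_add_adjacent_intervals (hint (θ - Real.pi / 2) (θ + φ))
    (hint (θ + φ) (θ + Real.pi / 2))
  have h9 : perimeter K ≤ 2 * D * (Real.sin φ + Real.pi / 2 - φ) := by
    rw [h5]
    linarith
  linarith

/-- **Widths of a body of perimeter `2π` and diameter at most `0.64 π`.** -/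
theorem width_class (hc : IsCompact K) (hne : K.Nonempty)
    (hd : ∀ x ∈ K, ∀ y ∈ K, ‖x - y‖ ≤ 0.64 * Real.pi) (hp : perimeter K = 2 * Real.pi) (θ : ℝ) :
    1.855 ≤ supportFn K θ + supportFn K (θ + Real.pi) := by
  have hπ := Real.pi_gt_d6
  have hπ2 := Real.pi_lt_d6
  have h1 := (abs_le.1 (Real.sin_bound (x := 0.39) (by rw [abs_of_pos (by norm_num)]; norm_num))).2
  rw [abs_of_pos (by norm_num)] at h1
  have h2 := (abs_le.1 (Real.cos_bound (x := 0.39) (by rw [abs_of_pos (by norm_num)]; norm_num))).1
  rw [abs_of_pos (by norm_num)] at h2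
  have hs : Real.sin 0.39 ≤ 0.38021 := by norm_num at h1 ⊢; linarith
  have hcs : 0.92274 ≤ Real.cos 0.39 := by norm_num at h2 ⊢; linarith
  have h3 := wd_ge_of_perimeter hc hne (φ := 0.39) hd (by norm_num) (by linarith) (by
    rw [hp]
    have h4 : 2 * (0.64 * Real.pi) * (Real.sin 0.39 + Real.pi / 2 - 0.39) =
        Real.pi * (1.28 * (Real.sin 0.39 + Real.pi / 2 - 0.39)) := by ring
    rw [h4, mul_comm 2 Real.pi]
    apply mul_lt_mul_of_pos_left _ (by linarith)
    linarith) θ
  have h4 : 1.855 ≤ 0.64 * Real.pi * Real.cos 0.39 := by nlinarith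
  exact h4.trans h3

end Pool.Agent.Helper72.PR
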